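import Mathlib

/-! The commutative ring `T ⊕ T ^ κ ⊕ T` with `v * v' = v ⬝ᵥ v'` in the last summand. -/

set_option autoImplicit false
set_option linter.unusedSectionVars false

namespace Pool.Agent.J795.Rep

/-- `T ⊕ T ^ κ ⊕ T` -/
@[ext] structure G (T κ : Type) where
  /-- scalar part -/
  a : T
  /-- vector part -/
  v : κ → T
  /-- top part -/
  b : T

namespace G

variable {T κ : Type} [CommRing T] [Fintype κ]

instance : Zero (G T κ) := ⟨⟨0, 0, 0⟩⟩
instance : One (G T κ) := ⟨⟨1, 0, 0⟩⟩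
instance : Add (G T κ) := ⟨fun x y => ⟨x.a + y.a, x.v + y.v, x.b + y.b⟩⟩
instance : Neg (G T κ) := ⟨fun x => ⟨-x.a, -x.v, -x.b⟩⟩
instance : Mul (G T κ) :=
  ⟨fun x y => ⟨x.a * y.a, x.a • y.v + y.a • x.v, x.a * y.b + y.a * x.b + x.v ⬝ᵥ y.v⟩⟩
instance : NatCast (G T κ) := ⟨fun n => ⟨n, 0, 0⟩⟩

@[simp] theorem zero_a : (0 : G T κ).a = 0 := rfl
@[simp] theorem zero_v : (0 : G T κ).v = 0 := rfl
@[simp] theorem zero_b : (0 : G T κ).b = 0 := rfl
@[simp] theorem one_a : (1 : G T κ).a = 1 := rfl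
@[simp] theorem one_v : (1 : G T κ).v = 0 := rfl
@[simp] theorem one_b : (1 : G T κ).b = 0 := rfl
@[simp] theorem add_a (x y : G T κ) : (x + y).a = x.a + y.a := rfl
@[simp] theorem add_v (x y : G T κ) : (x + y).v = x.v + y.v := rfl
@[simp] theorem add_b (x y : G T κ) : (x + y).b = x.b + y.b := rfl
@[simp] theorem neg_a (x : G T κ) : (-x).a = -x.a := rfl
@[simp] theorem neg_v (x : G T κ) : (-x).v = -x.v := rfl
@[simp] theorem neg_b (x : G T κ) : (-x).b = -x.b := rfl
@[simp] theorem mul_a (x y : G T κ) : (x * y).a = x.a * y.a := rfl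
@[simp] theorem mul_v (x y : G T κ) : (x * y).v = x.a • y.v + y.a • x.v := rfl
@[simp] theorem mul_b (x y : G T κ) :
    (x * y).b = x.a * y.b + y.a * x.b + x.v ⬝ᵥ y.v := rfl
@[simp] theorem nat_a (n : ℕ) : (n : G T κ).a = n := rfl
@[simp] theorem nat_v (n : ℕ) : (n : G T κ).v = 0 := rfl
@[simp] theorem nat_b (n : ℕ) : (n : G T κ).b = 0 := rfl

instance : CommRing (G T κ) where
  add_assoc x y z := by ext <;> simp [add_assoc]
  zero_add x := by ext <;> simp
  add_zero x := by ext <;> simp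
  add_comm x y := by ext <;> simp [add_comm]
  neg_add_cancel x := by ext <;> simp
  nsmul := nsmulRec
  zsmul := zsmulRec
  left_distrib x y z := by
    ext
    · simp [mul_add]
    · simp; ring
    · simp [dotProduct_add]; ring
  right_distrib x y z := by
    ext
    · simp [add_mul]
    · simp; ring
    · simp [add_dotProduct]; ring
  zero_mul x := by ext <;> simp
  mul_zero x := by ext <;> simp
  one_mul x := by ext <;> simp
  mul_one x := by ext <;> simp
  mul_comm x y := by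
    ext
    · simp [mul_comm]
    · simp; ring
    · simp [dotProduct_comm x.v y.v]; ring
  mul_assoc x y z := by
    ext
    · simp [mul_assoc]
    · simp; ring
    · simp [add_dotProduct, dotProduct_add]; ring
  natCast_zero := by ext <;> simp
  natCast_succ n := by ext <;> simp

theorem sum_a {ι : Type} (s : Finset ι) (f : ι → G T κ) : (∑ i ∈ s, f i).a = ∑ i ∈ s, (f i).a :=
  map_sum (⟨⟨G.a, rfl⟩, fun _ _ => rfl⟩ : G T κ →+ T) f s

theorem sum_v {ι : Type} (s : Finset ι) (f : ι → G T κ) : (∑ i ∈ s, f i).v = ∑ i ∈ s, (f i).v :=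
  map_sum (⟨⟨G.v, rfl⟩, fun _ _ => rfl⟩ : G T κ →+ (κ → T)) f s

theorem sum_b {ι : Type} (s : Finset ι) (f : ι → G T κ) : (∑ i ∈ s, f i).b = ∑ i ∈ s, (f i).b :=
  map_sum (⟨⟨G.b, rfl⟩, fun _ _ => rfl⟩ : G T κ →+ T) f s

/-- the projection onto the scalar part -/
def aHom : G T κ →+* T where
  toFun := G.a
  map_one' := rfl
  map_mul' _ _ := rfl
  map_zero' := rfl
  map_add' _ _ := rfl

@[simp] theorem int_a (n : ℤ) : (n : G T κ).a = n := map_intCast (aHom : G T κ →+* T) n

end G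

end Pool.Agent.J795.Rep
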