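import Mathlib

/-! Gluing two copies of an ideal to the integers, with `p` identified with `s`. -/

set_option autoImplicit false

namespace Pool.Agent.J795.Rep

section

variable {B : Type} [CommRing B] (I : Ideal B)

/-- the triples `(k, g, h)` with `g ≡ k` and `h ≡ k` modulo `I` -/
def PSub : Subring (ℤ × B × B) where
  carrier := {x | x.2.1 - (x.1 : B) ∈ I ∧ x.2.2 - (x.1 : B) ∈ I}
  mul_mem' := by
    rintro ⟨k, g, h⟩ ⟨k', g', h'⟩ ⟨h1, h2⟩ ⟨h3, h4⟩
    simp only [Set.mem_ofPred_eq, Prod.mk_mul_mk, Int.cast_mul] at *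
    constructor
    · have : g * g' - (k : B) * k' = g * (g' - k') + k' * (g - k) := by ring
      rw [this]
      exact I.add_mem (I.mul_mem_left _ h3) (I.mul_mem_left _ h1)
    · have : h * h' - (k : B) * k' = h * (h' - k') + k' * (h - k) := by ring
      rw [this]
      exact I.add_mem (I.mul_mem_left _ h4) (I.mul_mem_left _ h2)
  one_mem' := by simp
  add_mem' := by
    rintro ⟨k, g, h⟩ ⟨k', g', h'⟩ ⟨h1, h2⟩ ⟨h3, h4⟩
    simp only [Set.mem_ofPred_eq, Prod.mk_add_mk, Int.cast_add] at *
    constructor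
    · have : g + g' - ((k : B) + k') = (g - k) + (g' - k') := by ring
      rw [this]
      exact I.add_mem h1 h3
    · have : h + h' - ((k : B) + k') = (h - k) + (h' - k') := by ring
      rw [this]
      exact I.add_mem h2 h4
  zero_mem' := by simp
  neg_mem' := by
    rintro ⟨k, g, h⟩ ⟨h1, h2⟩
    simp only [Set.mem_ofPred_eq, Prod.neg_mk, Int.cast_neg] at *
    constructor
    · have : -g - (-(k : B)) = -(g - k) := by ring
      rw [this]
      exact I.neg_mem h1
    · have : -h - (-(k : B)) = -(h - k) := by ring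
      rw [this]
      exact I.neg_mem h2

/-- the element `(0, x, y)` -/
def el (x y : I) : PSub I := ⟨(0, x, y), by
  constructor
  · simp
  · simp⟩

theorem kring (p : ℕ) (hp : (p : B) = 0) (s : I) (hs : ∀ x ∈ I, x * (s : B) = 0) :
    ∃ (K : Type) (_ : CommRing K) (θ : I → I → K),
      (∀ x y x' y', θ (x + x') (y + y') = θ x y + θ x' y') ∧
      (∀ x y x' y' : I, θ ⟨(x : B) * x', I.mul_mem_left _ x'.2⟩ ⟨(y : B) * y', I.mul_mem_left _ y'.2⟩
        = θ x y * θ x' y') ∧
      θ s 0 = (p : K) ∧ θ 0 s = (p : K) ∧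
      (∀ (k : ℤ) (x y : I), (k : K) + θ x y = 0 →
        ∃ a b : ℤ, k = (a + b) * p ∧ (x : B) = -(a * (s : B)) ∧ (y : B) = -(b * (s : B))) := by
  let u : PSub I := (p : PSub I) - el I s 0
  let v : PSub I := (p : PSub I) - el I 0 s
  let Q : Ideal (PSub I) := Ideal.span {u, v}
  refine ⟨PSub I ⧸ Q, inferInstance, fun x y => Ideal.Quotient.mk Q (el I x y), ?_, ?_, ?_, ?_, ?_⟩
  · intro x y x' y'
    rw [← map_add]
    congr 1
  · intro x y x' y'
    rw [← map_mul]
    congr 1
  · have : u ∈ Q := Ideal.subset_span (by simp)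
    have h := (Ideal.Quotient.eq_zero_iff_mem).2 this
    rw [map_sub, sub_eq_zero, map_natCast] at h
    exact h.symm
  · have : v ∈ Q := Ideal.subset_span (by simp)
    have h := (Ideal.Quotient.eq_zero_iff_mem).2 this
    rw [map_sub, sub_eq_zero, map_natCast] at h
    exact h.symm
  · intro k x y h
    rw [← map_intCast (Ideal.Quotient.mk Q), ← map_add, Ideal.Quotient.eq_zero_iff_mem,
      Ideal.mem_span_pair] at h
    obtain ⟨c, d, h⟩ := h
    obtain ⟨⟨c0, c1, c2⟩, hc1, hc2⟩ := c
    obtain ⟨⟨d0, d1, d2⟩, hd1, hd2⟩ := d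
    have h' := congrArg Subtype.val h
    simp only [u, v, el, Subring.coe_add, Subring.coe_mul] at h'
    have e0 := congrArg Prod.fst h'
    have e1 := congrArg (fun z => z.2.1) h'
    have e2 := congrArg (fun z => z.2.2) h'
    simp at e0 e1 e2 hc1 hc2 hd1 hd2
    have hk : (k : B) = 0 := by
      rw [← e0]
      push_cast
      rw [hp]
      ring
    refine ⟨c0, d0, ?_, ?_, ?_⟩
    · linarith
    · have h1 := hs _ hc1
      have h2 := hs _ hd1
      have : c1 * (s : B) = c0 * s := by
        have := h1; rw [sub_mul, sub_eq_zero] at this; exact this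
      simp only [hp] at e1
      linear_combination (-1 : B) * e1 - this - hk
    · have h2 := hs _ hd2
      have : d2 * (s : B) = d0 * s := by
        have := h2; rw [sub_mul, sub_eq_zero] at this; exact this
      simp only [hp] at e2
      linear_combination (-1 : B) * e2 - this - hk

end

end Pool.Agent.J795.Rep
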