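import Mathlib
import Pool.Agent.J795.Rep.GRing
import Pool.Agent.J795.Rep.KRing

/-! The matrices `[[L, w E], [D wᵀ, R]]` over `T ⊕ T ^ κ ⊕ T`. -/

set_option autoImplicit false
set_option linter.unusedSectionVars false

namespace Pool.Agent.J795.Rep

open Matrix

variable {T κ : Type} [CommRing T] [Fintype κ] [DecidableEq κ]

/-- `[[L, w E], [D wᵀ, R]]` -/
def phi (R : Matrix κ κ T) (D E : κ → T) (L : T) : Matrix (κ ⊕ κ) (κ ⊕ κ) (G T κ) :=
  Matrix.fromBlocks (Matrix.of fun i j => if i = j then (⟨0, 0, L⟩ : G T κ) else 0)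
    (Matrix.of fun i j => (⟨0, Pi.single i (E j), 0⟩ : G T κ))
    (Matrix.of fun i j => (⟨0, Pi.single j (D i), 0⟩ : G T κ))
    (Matrix.of fun i j => (⟨R i j, 0, 0⟩ : G T κ))

theorem phi_mul (hN : (Fintype.card κ : T) = 0) (R R' : Matrix κ κ T) (D D' E E' : κ → T)
    (L L' : T) :
    phi R D E L * phi R' D' E' L' = phi (R * R') (R *ᵥ D') (E ᵥ* R') (E ⬝ᵥ D') := by
  unfold phi
  rw [Matrix.fromBlocks_multiply]
  congr 1
  · ext i j
    · simp [Matrix.mul_apply, G.sum_a]
      split_ifs <;> simp
    · simp [Matrix.mul_apply, G.sum_v]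
      split_ifs <;> simp
    · simp [Matrix.mul_apply, G.sum_b]
      split_ifs with h
      · subst h
        simp [dotProduct]
      · simp [h]
  · ext i j x
    · simp [Matrix.mul_apply, G.sum_a]
    · simp [Matrix.mul_apply, G.sum_v, Matrix.vecMul, dotProduct]
      by_cases h : x = i
      · subst h
        simp [mul_comm]
      · simp [h]
    · simp [Matrix.mul_apply, G.sum_b]
  · ext i j x
    · simp [Matrix.mul_apply, G.sum_a]
    · simp [Matrix.mul_apply, G.sum_v, Matrix.mulVec, dotProduct]
      by_cases h : x = j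
      · subst h
        simp
      · simp [h]
    · simp [Matrix.mul_apply, G.sum_b]
  · ext i j
    · simp [Matrix.mul_apply, G.sum_a]
    · simp [Matrix.mul_apply, G.sum_v]
    · simp [Matrix.mul_apply, G.sum_b, hN]

theorem phi_add (R R' : Matrix κ κ T) (D D' E E' : κ → T) (L L' : T) :
    phi (R + R') (D + D') (E + E') (L + L') = phi R D E L + phi R' D' E' L' := by
  unfold phi
  rw [Matrix.fromBlocks_add]
  congr 1
  · ext i j
    · simp; split_ifs <;> simp
    · simp; split_ifs <;> simp
    · simp; split_ifs <;> simp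
  · ext i j
    · simp
    · simp [Pi.single_add]
    · simp
  · ext i j
    · simp
    · simp [Pi.single_add]
    · simp
  · ext i j
    · simp
    · simp
    · simp

theorem phi_a (R : Matrix κ κ T) (D E : κ → T) (L : T) (t : T) (h : ∀ i j, t ∣ R i j) (i j) :
    t ∣ (phi R D E L i j).a := by
  rcases i with i | i <;> rcases j with j | j <;> simp [phi, h]
  split_ifs <;> simp

theorem phi_c (L : T) : phi (0 : Matrix κ κ T) 0 0 L =
    Matrix.fromBlocks (Matrix.of fun i j => if i = j then (⟨0, 0, L⟩ : G T κ) else 0) 0 0 0 := by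
  unfold phi
  congr 1
  · ext i j <;> simp
  · ext i j <;> simp

end Pool.Agent.J795.Rep
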