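import Mathlib
import Pool.Agent.J795.Rep.Phi

/-! From a system of matrices over `T` to an embedding into a matrix ring. -/

set_option autoImplicit false

namespace Pool.Agent.J795.Rep

open Matrix

/-- the unital extension of a multiplicative map on `J` -/
theorem extend {A M : Type} [Ring A] [Ring M] (J : NonUnitalSubring A) (p : ℕ)
    (hres : ∀ r : A, ∃ k : ℤ, r - k ∈ J) (hpJ : (p : A) ∈ J)
    (hk : ∀ k : ℤ, (k : A) ∈ J → (p : ℤ) ∣ k)
    (Φ : J → M) (hadd : ∀ a b, Φ (a + b) = Φ a + Φ b) (hmul : ∀ a b, Φ (a * b) = Φ a * Φ b)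
    (hc : Φ ⟨p, hpJ⟩ = (p : M))
    (hinj : ∀ (k : ℤ) (a : J), (k : M) + Φ a = 0 → (k : A) + a = 0) :
    ∃ f : A →+* M, Function.Injective f := by
  classical
  let Ψ : J →+ M := AddMonoidHom.mk' Φ hadd
  have hΨ : ∀ a, Ψ a = Φ a := fun _ => rfl
  choose k hkJ using hres
  let f : A → M := fun r => (k r : M) + Ψ ⟨r - k r, hkJ r⟩
  have key : ∀ (r : A) (l : ℤ) (a : J), r = l + a → f r = (l : M) + Ψ a := by
    intro r l a h
    have h1 : ((l - k r : ℤ) : A) ∈ J := by
      have : ((l - k r : ℤ) : A) = (r - k r) - a := by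
        rw [h]; push_cast; abel
      rw [this]
      exact J.sub_mem (hkJ r) a.2
    obtain ⟨m, hm⟩ := hk _ h1
    have h2 : (⟨r - k r, hkJ r⟩ : J) = a + m • ⟨p, hpJ⟩ := by
      apply Subtype.ext
      have h3 : ((l - k r : ℤ) : A) = (p : A) * m := by
        rw [hm]; push_cast; rfl
      push_cast at h3
      have h4 : ((m • (⟨p, hpJ⟩ : J) : J) : A) = (p : A) * m := by
        rw [AddSubgroupClass.coe_zsmul]
        simp [zsmul_eq_mul, (Nat.cast_commute p (m : A)).eq]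
      change r - (k r : A) = a + ((m • (⟨p, hpJ⟩ : J) : J) : A)
      rw [h4, ← h3, h]
      abel
    have h5 : (l : M) = k r + (p : M) * m := by
      have : l = k r + p * m := by linarith
      rw [this]; push_cast; rfl
    change (k r : M) + Ψ ⟨r - k r, hkJ r⟩ = _
    rw [h2, map_add, map_zsmul, hΨ ⟨p, hpJ⟩, hc, h5, zsmul_eq_mul, (Nat.cast_commute p (m : M)).eq]
    abel
  have dec : ∀ r : A, r = k r + (⟨r - k r, hkJ r⟩ : J) := fun r => by simp
  refine ⟨⟨⟨⟨f, ?_⟩, ?_⟩, ?_, ?_⟩, ?_⟩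
  · have := key 1 1 0 (by simp)
    simpa using this
  · intro x y
    have := key (x * y) (k x * k y) (k x • ⟨y - k y, hkJ y⟩ + k y • ⟨x - k x, hkJ x⟩ +
      ⟨x - k x, hkJ x⟩ * ⟨y - k y, hkJ y⟩) (by
        push_cast
        simp only [zsmul_eq_mul]
        have c1 := (Int.cast_commute (k y) x).eq
        have c2 := (Int.cast_commute (k x) y).eq
        have c3 := (Int.cast_commute (k x) (k y : A)).eq
        noncomm_ring
        simp only [c1, c3]
        abel)
    change f (x * y) = f x * f y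
    rw [this, map_add, map_add, map_zsmul, map_zsmul]
    change _ + (_ + _ + Φ _) = _
    rw [hmul]
    simp only [f, ← hΨ]
    push_cast
    simp only [zsmul_eq_mul]
    have c1 := (Int.cast_commute (k y) (Ψ ⟨x - k x, hkJ x⟩)).eq
    rw [c1]
    noncomm_ring
  · have := key 0 0 0 (by simp)
    simpa using this
  · intro x y
    have := key (x + y) (k x + k y) (⟨x - k x, hkJ x⟩ + ⟨y - k y, hkJ y⟩) (by
      push_cast; abel)
    change f (x + y) = f x + f y
    rw [this, map_add]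
    simp only [f]
    push_cast
    abel
  · rw [injective_iff_map_eq_zero]
    intro r hr
    have h := hinj (k r) ⟨r - k r, hkJ r⟩ hr
    rw [← dec r] at h
    exact h

/-- the elements whose scalar part is divisible by `t` -/
def tIdeal {T : Type} [CommRing T] (κ : Type) [Fintype κ] (t : T) : Ideal (G T κ) where
  carrier := {g | t ∣ g.a}
  add_mem' := fun {x y} hx hy => by
    simp only [Set.mem_ofPred_eq, G.add_a] at *
    exact dvd_add hx hy
  zero_mem' := by simp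
  smul_mem' := fun c {x} hx => by
    simp only [Set.mem_ofPred_eq, smul_eq_mul, G.mul_a] at *
    exact dvd_mul_of_dvd_right hx _

theorem system {A : Type} [Ring A] (J : NonUnitalSubring A) (p : ℕ) (hp0 : p ≠ 0)
    (hres : ∀ r : A, ∃ k : ℤ, r - k ∈ J) (hpJ : (p : A) ∈ J)
    (hk : ∀ k : ℤ, (k : A) ∈ J → (p : ℤ) ∣ k) (hann : (p : A) * p = 0)
    {κ : Type} [Fintype κ] [DecidableEq κ] [Nonempty κ] {T : Type} [CommRing T]
    (hpT : (p : T) = 0) (hN : (Fintype.card κ : T) = 0) (t : T) (N : ℕ) (htN : t ^ (N + 1) = 0)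
    (ht0 : ∀ m : ℤ, (m : T) * t ^ N = 0 → (p : ℤ) ∣ m)
    (R : J → Matrix κ κ T) (D E : J → κ → T) (L : J → T)
    (aR : ∀ a b, R (a + b) = R a + R b) (aD : ∀ a b, D (a + b) = D a + D b)
    (aE : ∀ a b, E (a + b) = E a + E b) (aL : ∀ a b, L (a + b) = L a + L b)
    (mR : ∀ a b, R (a * b) = R a * R b) (mD : ∀ a b, D (a * b) = R a *ᵥ D b)
    (mE : ∀ a b, E (a * b) = E a ᵥ* R b) (mL : ∀ a b, L (a * b) = E a ⬝ᵥ D b)
    (hRt : ∀ a i j, t ∣ R a i j)
    (cR : R ⟨p, hpJ⟩ = 0) (cD : D ⟨p, hpJ⟩ = 0) (cE : E ⟨p, hpJ⟩ = 0)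
    (cL : L ⟨p, hpJ⟩ = t ^ N)
    (hinj : ∀ a, D a = 0 → ∃ m : ℤ, a = m • ⟨p, hpJ⟩) :
    ∃ (C : Type) (_ : CommRing C) (n : ℕ) (f : A →+* Matrix (Fin n) (Fin n) C),
      Function.Injective f := by
  classical
  let I : Ideal (G T κ) := tIdeal κ t
  let s : I := ⟨⟨0, 0, t ^ N⟩, by change t ∣ 0; simp⟩
  have hpG : ((p : ℕ) : G T κ) = 0 := by ext <;> simp [hpT]
  have hs : ∀ x ∈ I, x * (s : G T κ) = 0 := by
    rintro x ⟨y, hy⟩
    ext
    · simp [s]
    · simp [s]
    · simp [s, hy]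
      have : t * y * t ^ N = t ^ (N + 1) * y := by ring
      rw [this, htN, zero_mul]
  obtain ⟨K, hK, θ, θa, θm, θ1, θ2, θk⟩ := kring I p hpG s hs
  let φ : J → Matrix (κ ⊕ κ) (κ ⊕ κ) (G T κ) := fun a => phi (R a) (D a) (E a) (L a)
  have φadd : ∀ a b, φ (a + b) = φ a + φ b := by
    intro a b
    simp only [φ, aR, aD, aE, aL, phi_add]
  have φmul : ∀ a b, φ (a * b) = φ a * φ b := by
    intro a b
    simp only [φ, phi_mul hN, mR, mD, mE, mL]
  have φI : ∀ a i j, φ a i j ∈ I := fun a i j => phi_a _ _ _ _ t (hRt a) i j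
  let Θ : I × I →+ K := AddMonoidHom.mk' (fun x => θ x.1 x.2) (fun x y => θa _ _ _ _)
  have hΘ : ∀ x y, Θ (x, y) = θ x y := fun _ _ => rfl
  let Φ : J → Matrix (κ ⊕ κ) (κ ⊕ κ) K := fun a =>
    Matrix.of fun i j => θ ⟨φ a i j, φI a i j⟩ ⟨φ a i.swap j.swap, φI a _ _⟩
  have Φc : Φ ⟨p, hpJ⟩ = (p : Matrix (κ ⊕ κ) (κ ⊕ κ) K) := by
    have e : φ ⟨p, hpJ⟩ = Matrix.fromBlocks
        (Matrix.of fun i j => if i = j then (⟨0, 0, t ^ N⟩ : G T κ) else 0) 0 0 0 := by
      simp only [φ, cR, cD, cE, cL, phi_c]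
    have z0 : θ 0 0 = 0 := by
      rw [← hΘ]; exact map_zero Θ
    ext i j
    rw [← Matrix.diagonal_natCast, Matrix.diagonal_apply]
    have hij : Φ ⟨p, hpJ⟩ i j = θ ⟨φ ⟨p, hpJ⟩ i j, φI _ i j⟩ ⟨φ ⟨p, hpJ⟩ i.swap j.swap, φI _ _ _⟩ :=
      rfl
    rw [hij]
    have val : ∀ i j, φ ⟨p, hpJ⟩ i j = if i = j ∧ i.isLeft then (s : G T κ) else 0 := by
      intro i j
      rw [e]
      rcases i with i | i <;> rcases j with j | j <;> simp [s]
    have v1 : (⟨φ ⟨p, hpJ⟩ i j, φI _ i j⟩ : I) = if i = j ∧ i.isLeft then s else 0 := by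
      apply Subtype.ext
      change φ ⟨p, hpJ⟩ i j = _
      rw [val]
      split_ifs <;> rfl
    have v2 : (⟨φ ⟨p, hpJ⟩ i.swap j.swap, φI _ _ _⟩ : I) = if i = j ∧ i.isRight then s else 0 := by
      apply Subtype.ext
      change φ ⟨p, hpJ⟩ i.swap j.swap = _
      rw [val]
      rcases i with i | i <;> rcases j with j | j <;> simp
      split_ifs <;> rfl
    rw [v1, v2]
    rcases i with i | i <;> rcases j with j | j <;> simp
    · split_ifs with h
      · simp [θ1]
      · simp [z0]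
    · exact z0
    · exact z0
    · split_ifs with h
      · simp [θ2]
      · simp [z0]
  have Φadd : ∀ a b, Φ (a + b) = Φ a + Φ b := by
    intro a b
    ext i j
    change θ _ _ = θ _ _ + θ _ _
    rw [← θa]
    congr 1
    · apply Subtype.ext
      change φ (a + b) i j = φ a i j + φ b i j
      rw [φadd]; rfl
    · apply Subtype.ext
      change φ (a + b) _ _ = φ a _ _ + φ b _ _
      rw [φadd]; rfl
  have Φmul : ∀ a b, Φ (a * b) = Φ a * Φ b := by
    intro a b
    ext i k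
    rw [Matrix.mul_apply]
    change θ _ _ = ∑ j, θ ⟨φ a i j, φI a i j⟩ ⟨φ a i.swap j.swap, φI a _ _⟩ *
      θ ⟨φ b j k, φI b j k⟩ ⟨φ b j.swap k.swap, φI b _ _⟩
    simp only [← θm]
    simp only [← hΘ]
    rw [← map_sum]
    congr 1
    apply Prod.ext
    · rw [Prod.fst_sum]
      apply Subtype.ext
      rw [AddSubmonoidClass.coe_finsetSum]
      change φ (a * b) i k = ∑ j, φ a i j * φ b j k
      rw [φmul, Matrix.mul_apply]
    · rw [Prod.snd_sum]
      apply Subtype.ext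
      rw [AddSubmonoidClass.coe_finsetSum]
      change φ (a * b) i.swap k.swap = ∑ j : κ ⊕ κ, φ a i.swap j.swap * φ b j.swap k.swap
      rw [φmul, Matrix.mul_apply]
      exact (Equiv.sum_comp (Equiv.sumComm κ κ) fun j => φ a i.swap j * φ b j k.swap).symm
  have hinj' : ∀ (k : ℤ) (a : J), (k : Matrix (κ ⊕ κ) (κ ⊕ κ) K) + Φ a = 0 → (k : A) + a = 0 := by
    intro k a h
    obtain ⟨i0⟩ := (inferInstance : Nonempty κ)
    have ent : ∀ i j, i ≠ j → Φ a i j = 0 := by
      intro i j hij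
      have := congrFun (congrFun h i) j
      rw [Matrix.add_apply, ← Matrix.diagonal_intCast, Matrix.diagonal_apply, if_neg hij, zero_add] at this
      exact this
    have hD : D a = 0 := by
      ext i
      have h1 := ent (Sum.inr i) (Sum.inl i0) (by simp)
      obtain ⟨x, y, -, h2, -⟩ := θk 0 _ _ (by rw [Int.cast_zero, zero_add]; exact h1)
      have h3 := congrArg (fun g => g.v i0) h2
      simpa [φ, phi, s] using h3
    obtain ⟨m, rfl⟩ := hinj a hD
    have hm : Φ (m • ⟨p, hpJ⟩) = m • Φ ⟨p, hpJ⟩ :=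
      map_zsmul (AddMonoidHom.mk' Φ Φadd) m ⟨p, hpJ⟩
    rw [hm, Φc] at h
    have h1 := congrFun (congrFun h (Sum.inl i0)) (Sum.inl i0)
    rw [Matrix.add_apply, Matrix.smul_apply, ← Matrix.diagonal_intCast, ← Matrix.diagonal_natCast,
      Matrix.diagonal_apply_eq, Matrix.diagonal_apply_eq] at h1
    have z0 : θ 0 0 = 0 := by
      rw [← hΘ]; exact map_zero Θ
    obtain ⟨x, y, h2, h3, h4⟩ := θk (k + m * p) 0 0 (by
      rw [z0, add_zero]
      push_cast
      simpa using h1)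
    have hx : (p : ℤ) ∣ x := by
      apply ht0
      have := congrArg G.b h3
      simpa [s] using this
    have hy : (p : ℤ) ∣ y := by
      apply ht0
      have := congrArg G.b h4
      simpa [s] using this
    obtain ⟨x', rfl⟩ := hx
    obtain ⟨y', rfl⟩ := hy
    have h5 : ((m • (⟨p, hpJ⟩ : J) : J) : A) = m * (p : A) := by
      rw [AddSubgroupClass.coe_zsmul]
      simp [zsmul_eq_mul]
    rw [h5]
    have h6 : (k : A) + m * p = ((k + m * p : ℤ) : A) := by push_cast; rfl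
    rw [h6, h2]
    have h7 : (((p : ℤ) * x' + p * y') * p : ℤ) = (p * p) * (x' + y') := by ring
    rw [h7]
    push_cast
    rw [hann, zero_mul]
  obtain ⟨f, hf⟩ := extend J p hres hpJ hk Φ Φadd Φmul Φc hinj'
  let e : κ ⊕ κ ≃ Fin (Fintype.card (κ ⊕ κ)) := Fintype.equivFin _
  exact ⟨K, hK, Fintype.card (κ ⊕ κ), (Matrix.reindexRingEquiv K e : _ →+* _).comp f,
    (Matrix.reindexRingEquiv K e).injective.comp hf⟩

end Pool.Agent.J795.Rep
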