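import Mathlib
import Pool.Agent.J795.Rep.GRing

/-! Block matrices for rings of characteristic `p ^ 2`. -/

set_option autoImplicit false
set_option linter.unusedSectionVars false

namespace Pool.Agent.J795.Rep

open Matrix Kronecker

theorem quotHom {R S : Type} [Ring R] [CommRing S] (P : Subring S) (u : P)
    {ι : Type} [Fintype ι] [DecidableEq ι]
    (raw : R → Matrix ι ι S) (hmem : ∀ r i j, raw r i j ∈ P) (h1 : raw 1 = 1)
    (hadd : ∀ r r', raw (r + r') = raw r + raw r')
    (hmul : ∀ r r' i j, ∃ m : ℤ, raw (r * r') i j = (raw r * raw r') i j + m * (u : S)) :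
    ∃ (K : Type) (_ : CommRing K) (f : R →+* Matrix ι ι K),
      ∀ r, f r = 0 → ∀ i j, ∃ c ∈ P, raw r i j = c * u := by
  let Q : Ideal P := Ideal.span {u}
  let g : R → Matrix ι ι P := fun r => Matrix.of fun i j => ⟨raw r i j, hmem r i j⟩
  have gv : ∀ r i j, ((g r i j : P) : S) = raw r i j := fun _ _ _ => rfl
  have gadd : ∀ r r', g (r + r') = g r + g r' := by
    intro r r'
    ext i j
    rw [Matrix.add_apply, Subring.coe_add, gv, gv, gv, hadd, Matrix.add_apply]
  have g1 : g 1 = 1 := by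
    ext i j
    rw [gv, h1, Matrix.one_apply, Matrix.one_apply]
    split_ifs <;> rfl
  have g0 : g 0 = 0 := by
    have := gadd 0 0
    rw [add_zero] at this
    exact left_eq_add.1 this
  let q : P →+* P ⧸ Q := Ideal.Quotient.mk Q
  refine ⟨P ⧸ Q, inferInstance,
    { toFun := fun r => (g r).map q
      map_one' := by rw [g1, Matrix.map_one _ (map_zero q) (map_one q)]
      map_mul' := ?_
      map_zero' := by rw [g0, Matrix.map_zero _ (map_zero q)]
      map_add' := ?_ }, ?_⟩
  · intro r r'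
    ext i j
    rw [Matrix.mul_apply]
    change q (g (r * r') i j) = ∑ k, q (g r i k) * q (g r' k j)
    simp only [← map_mul]
    rw [← map_sum, ← sub_eq_zero, ← map_sub, Ideal.Quotient.eq_zero_iff_mem,
      Ideal.mem_span_singleton]
    obtain ⟨m, hm⟩ := hmul r r' i j
    refine ⟨m, ?_⟩
    apply Subtype.ext
    rw [AddSubgroupClass.coe_sub, gv, hm]
    push_cast
    rw [Matrix.mul_apply]
    simp only [gv]
    ring
  · intro r r'
    change (g (r + r')).map q = _
    rw [gadd]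
    ext i j
    simp
  · intro r hr i j
    have h := congrFun (congrFun hr i) j
    change q (g r i j) = 0 at h
    rw [Ideal.Quotient.eq_zero_iff_mem, Ideal.mem_span_singleton] at h
    obtain ⟨c, hc⟩ := h
    refine ⟨c, c.2, ?_⟩
    rw [← gv, hc, Subring.coe_mul, mul_comm]

section

variable {K0 T α κ ν : Type} [CommRing K0] [CommRing T] [Fintype α] [DecidableEq α] [Fintype κ]
  [DecidableEq κ] [Fintype ν] [DecidableEq ν] {n : ℕ}

/-- the first component -/
def raw1 (κ : Type) [Fintype κ] [DecidableEq κ] (n : ℕ) (A : Matrix α α K0) (F : Matrix ν ν K0) :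
    Matrix ((α × κ) ⊕ (ν × Fin n)) ((α × κ) ⊕ (ν × Fin n)) K0 :=
  fromBlocks (A ⊗ₖ (1 : Matrix κ κ K0)) 0 0 (F ⊗ₖ (1 : Matrix (Fin n) (Fin n) K0))

theorem raw1_mul (A A' : Matrix α α K0) (F F' : Matrix ν ν K0) :
    raw1 κ n A F * raw1 κ n A' F' = raw1 κ n (A * A') (F * F') := by
  unfold raw1
  rw [fromBlocks_multiply]
  simp [← mul_kronecker_mul]

theorem raw1_add (A A' : Matrix α α K0) (F F' : Matrix ν ν K0) :
    raw1 κ n (A + A') (F + F') = raw1 κ n A F + raw1 κ n A' F' := by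
  unfold raw1
  rw [fromBlocks_add]
  simp [add_kronecker]

theorem raw1_one : raw1 κ n (1 : Matrix α α K0) (1 : Matrix ν ν K0) = 1 := by
  unfold raw1
  simp

/-- the inclusion -/
def inj0 (T κ : Type) [CommRing T] [Fintype κ] : T →+* G T κ where
  toFun a := ⟨a, 0, 0⟩
  map_one' := rfl
  map_mul' x y := by ext <;> simp
  map_zero' := rfl
  map_add' x y := by ext <;> simp

@[simp] theorem inj0_a (x : T) : (inj0 T κ x).a = x := rfl
@[simp] theorem inj0_v (x : T) : (inj0 T κ x).v = 0 := rfl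
@[simp] theorem inj0_b (x : T) : (inj0 T κ x).b = 0 := rfl

/-- the second component -/
def raw2 (κ : Type) [Fintype κ] [DecidableEq κ] (m0 : ν) (A : Matrix α α T) (B : Matrix α (Fin n) T)
    (C : Matrix (Fin n) α T) (D : Matrix (Fin n) (Fin n) T) :
    Matrix ((α × κ) ⊕ (ν × Fin n)) ((α × κ) ⊕ (ν × Fin n)) (G T κ) :=
  fromBlocks ((A.map (inj0 T κ)) ⊗ₖ (1 : Matrix κ κ (G T κ)))
    (Matrix.of fun x y => if y.1 = m0 then (⟨0, Pi.single x.2 (B x.1 y.2), 0⟩ : G T κ) else 0)
    (Matrix.of fun x y => if x.1 = m0 then (⟨0, Pi.single y.2 (C x.2 y.1), 0⟩ : G T κ) else 0)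
    ((1 : Matrix ν ν (G T κ)) ⊗ₖ (D.map (inj0 T κ)))

/-- the correction term -/
def corr (κ ν : Type) [Fintype κ] [DecidableEq κ] (n : ℕ) (M : Matrix α α T) :
    Matrix ((α × κ) ⊕ (ν × Fin n)) ((α × κ) ⊕ (ν × Fin n)) (G T κ) :=
  fromBlocks (Matrix.of fun x y => if x.2 = y.2 then (⟨0, 0, M x.1 y.1⟩ : G T κ) else 0) 0 0 0

theorem raw2_add (m0 : ν) (A A' : Matrix α α T) (B B' : Matrix α (Fin n) T)
    (C C' : Matrix (Fin n) α T) (D D' : Matrix (Fin n) (Fin n) T) :
    raw2 κ m0 (A + A') (B + B') (C + C') (D + D') =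
      raw2 κ m0 A B C D + raw2 κ m0 A' B' C' D' := by
  unfold raw2
  rw [fromBlocks_add]
  congr 1
  · rw [← add_kronecker]
    congr 1
    ext i j <;> simp
  · ext x y
    · simp; split_ifs <;> simp
    · simp; split_ifs <;> simp [Pi.single_add]
    · simp; split_ifs <;> simp
  · ext x y
    · simp; split_ifs <;> simp
    · simp; split_ifs <;> simp [Pi.single_add]
    · simp; split_ifs <;> simp
  · rw [← kronecker_add]
    congr 1
    ext i j <;> simp

theorem raw2_one (m0 : ν) : raw2 κ m0 (1 : Matrix α α T) 0 0 (1 : Matrix (Fin n) (Fin n) T) = 1 := by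
  unfold raw2
  have e1 : (Matrix.of fun (x : α × κ) (y : ν × Fin n) =>
      if y.1 = m0 then (⟨0, Pi.single x.2 ((0 : Matrix α (Fin n) T) x.1 y.2), 0⟩ : G T κ) else 0) = 0 := by
    ext x y <;> simp <;> split_ifs <;> simp
  have e2 : (Matrix.of fun (x : ν × Fin n) (y : α × κ) =>
      if x.1 = m0 then (⟨0, Pi.single y.2 ((0 : Matrix (Fin n) α T) x.2 y.1), 0⟩ : G T κ) else 0) = 0 := by
    ext x y <;> simp <;> split_ifs <;> simp
  rw [e1, e2]
  simp

end

end Pool.Agent.J795.Rep
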