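import Mathlib
import Pool.Agent.J795.Rep.TwoMul

/-! From a system of block matrices to an embedding, characteristic `p ^ 2`. -/

set_option autoImplicit false
set_option linter.unusedSectionVars false

namespace Pool.Agent.J795.Rep

open Matrix Kronecker

/-- reduction modulo `p` -/
def red (p : ℕ) : ZMod (p ^ 2) →+* ZMod p :=
  ZMod.castHom (dvd_pow_self p two_ne_zero) (ZMod p)

/-- pairs congruent to the same integer -/
def PS (p : ℕ) {K0 T κ : Type} [CommRing K0] [CommRing T] [Fintype κ] (t : T) :
    Subring (K0 × G T κ) where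
  carrier := {x | ∃ k : ℤ, (p : K0) * (x.1 - k) = 0 ∧ t ∣ x.2.a - k}
  mul_mem' := by
    rintro ⟨x, g⟩ ⟨y, h⟩ ⟨k, h1, h2⟩ ⟨l, h3, h4⟩
    refine ⟨k * l, ?_, ?_⟩
    · simp only [Prod.mk_mul_mk, Int.cast_mul] at *
      linear_combination y * h1 + (k : K0) * h3
    · simp only [Prod.mk_mul_mk, Int.cast_mul, G.mul_a] at *
      have : g.a * h.a - (k : T) * l = h.a * (g.a - k) + k * (h.a - l) := by ring
      rw [this]
      exact dvd_add (dvd_mul_of_dvd_right h2 _) (dvd_mul_of_dvd_right h4 _)
  one_mem' := ⟨1, by simp, by simp⟩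
  add_mem' := by
    rintro ⟨x, g⟩ ⟨y, h⟩ ⟨k, h1, h2⟩ ⟨l, h3, h4⟩
    refine ⟨k + l, ?_, ?_⟩
    · simp only [Prod.mk_add_mk, Int.cast_add] at *
      linear_combination h1 + h3
    · simp only [Prod.mk_add_mk, Int.cast_add, G.add_a] at *
      have : g.a + h.a - ((k : T) + l) = (g.a - k) + (h.a - l) := by ring
      rw [this]
      exact dvd_add h2 h4
  zero_mem' := ⟨0, by simp, by simp⟩
  neg_mem' := by
    rintro ⟨x, g⟩ ⟨k, h1, h2⟩
    refine ⟨-k, ?_, ?_⟩
    · simp only [Prod.neg_mk, Int.cast_neg] at *
      linear_combination -h1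
    · simp only [Prod.neg_mk, Int.cast_neg, G.neg_a] at *
      have : -g.a - (-(k : T)) = -(g.a - k) := by ring
      rw [this]
      exact (dvd_neg).2 h2

theorem system2 {R : Type} [Ring R] (p : ℕ) [Fact p.Prime]
    {K0 T α ν : Type} [CommRing K0] [CommRing T] [Fintype α] [DecidableEq α] [Fintype ν]
    [DecidableEq ν] (m0 : ν) {n : ℕ} [CharP K0 (p ^ 2)] (F : R →+* Matrix ν ν K0)
    (al : ZMod p →+* T) (t : T)
    (htN : t ^ (n + 1) = 0) (ht0 : ∀ x : ZMod p, al x * t ^ n = 0 → x = 0)
    (A : R → Matrix α α (ZMod (p ^ 2))) (B : R → Matrix α (Fin n) (ZMod p))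
    (C : R → Matrix (Fin n) α (ZMod p)) (D : R → Matrix (Fin n) (Fin n) (ZMod p))
    (mulp : ZMod p →+ ZMod (p ^ 2)) (hmulp : mulp 1 = p)
    (aA : ∀ r s, A (r + s) = A r + A s) (aB : ∀ r s, B (r + s) = B r + B s)
    (aC : ∀ r s, C (r + s) = C r + C s) (aD : ∀ r s, D (r + s) = D r + D s)
    (oA : A 1 = 1) (oB : B 1 = 0) (oC : C 1 = 0) (oD : D 1 = 1)
    (mA : ∀ r s, A (r * s) = A r * A s + (B r * C s).map mulp)
    (mB : ∀ r s, B (r * s) = (A r).map (red p) * B s + B r * D s)
    (mC : ∀ r s, C (r * s) = C r * (A s).map (red p) + D r * C s)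
    (mD : ∀ r s, D (r * s) = D r * D s)
    (tri : ∀ r i j, i < j → D r i j = 0)
    (hk : ∀ r, ∃ k : ℤ, (∀ i j, (p : K0) * (F r i j - (if i = j then (k : K0) else 0)) = 0) ∧
      ∀ i, D r i i = k)
    (inj : ∀ r, A r = 0 → B r = 0 → C r = 0 → D r = 0 → r = 0) :
    ∃ (C : Type) (_ : CommRing C) (n : ℕ) (f : R →+* Matrix (Fin n) (Fin n) C),
      Function.Injective f := by
  classical
  have hTp : (p : T) = 0 := by
    rw [← map_natCast al, ZMod.natCast_self, map_zero]
  have hκ : (Fintype.card (Fin p) : T) = 0 := by rw [Fintype.card_fin, hTp]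
  have hp2 : (p : K0) * p = 0 := by
    have := CharP.cast_eq_zero K0 (p ^ 2)
    push_cast at this
    rw [← this]; ring
  have hp1 : 0 < p := (Fact.out : p.Prime).pos
  have : NeZero p := ⟨hp1.ne'⟩
  let c0 : Fin p := ⟨0, hp1⟩
  let ζ : ZMod (p ^ 2) →+* K0 := ZMod.castHom (dvd_refl (p ^ 2)) K0
  let ap : ZMod (p ^ 2) →+* T := al.comp (red p)
  have redmulp : ∀ x, red p (mulp x) = 0 := by
    intro x
    obtain ⟨m, rfl⟩ := ZMod.intCast_surjective x
    have : ((m : ℤ) : ZMod p) = m • (1 : ZMod p) := by simp
    rw [this, map_zsmul, hmulp, map_zsmul, map_natCast, ZMod.natCast_self, smul_zero]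
  let tA : R → Matrix α α T := fun r => (A r).map ap
  let tB : R → Matrix α (Fin n) T := fun r => Matrix.of fun i j => t ^ (n - (j : ℕ)) * al (B r i j)
  let tC : R → Matrix (Fin n) α T := fun r => Matrix.of fun j i => t ^ (j : ℕ) * al (C r j i)
  let tD : R → Matrix (Fin n) (Fin n) T := fun r =>
    Matrix.of fun x y => t ^ ((x : ℕ) - y) * al (D r x y)
  have mtA : ∀ r s, tA (r * s) = tA r * tA s := by
    intro r s
    ext i j
    simp only [tA, Matrix.map_apply, mA, Matrix.add_apply, Matrix.mul_apply, map_add]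
    have : ap (mulp (∑ j_1, B r i j_1 * C s j_1 j)) = 0 := by
      change al (red p _) = 0
      rw [redmulp, map_zero]
    rw [this, add_zero, map_sum]
    simp
  have mtB : ∀ r s, tB (r * s) = tA r * tB s + tB r * tD s := by
    intro r s
    ext i j
    simp only [tA, tB, tD, Matrix.map_apply, mB, Matrix.add_apply, Matrix.mul_apply, map_add,
      Matrix.of_apply, map_sum, map_mul, mul_add, Finset.mul_sum]
    congr 1
    · refine Finset.sum_congr rfl fun z _ => ?_
      change _ = al (red p (A r i z)) * _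
      ring
    · refine Finset.sum_congr rfl fun z _ => ?_
      rcases lt_or_ge z j with h | h
      · simp [tri s z j h]
      · have : n - (j : ℕ) = (n - z) + (z - j) := by
          have := Fin.le_def.1 h
          have := z.2
          omega
        rw [this, pow_add]; ring
  have mtC : ∀ r s, tC (r * s) = tC r * tA s + tD r * tC s := by
    intro r s
    ext i j
    simp only [tA, tC, tD, Matrix.map_apply, mC, Matrix.add_apply, Matrix.mul_apply, map_add,
      Matrix.of_apply, map_sum, map_mul, mul_add, Finset.mul_sum]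
    congr 1
    · refine Finset.sum_congr rfl fun z _ => ?_
      change _ = _ * al (red p (A s z j))
      ring
    · refine Finset.sum_congr rfl fun z _ => ?_
      rcases lt_or_ge i z with h | h
      · simp [tri r i z h]
      · have : (i : ℕ) = (i - z) + z := by
          have := Fin.le_def.1 h
          omega
        conv_lhs => rw [this, pow_add]
        ring
  have mtD : ∀ r s, tD (r * s) = tD r * tD s := by
    intro r s
    ext i j
    simp only [tD, mD, Matrix.mul_apply, Matrix.of_apply, map_sum, map_mul, Finset.mul_sum]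
    refine Finset.sum_congr rfl fun z _ => ?_
    rcases lt_or_ge i z with h | h
    · simp [tri r i z h]
    rcases lt_or_ge z j with h' | h'
    · simp [tri s z j h']
    · have : (i : ℕ) - j = (i - z) + (z - j) := by
        have := Fin.le_def.1 h
        have := Fin.le_def.1 h'
        omega
      rw [this, pow_add]; ring
  have mBC : ∀ r s i j, (tB r * tC s) i j = t ^ n * al ((B r * C s) i j) := by
    intro r s i j
    simp only [tB, tC, Matrix.mul_apply, Matrix.of_apply, map_sum, map_mul, Finset.mul_sum]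
    refine Finset.sum_congr rfl fun z _ => ?_
    have : t ^ n = t ^ (n - (z : ℕ)) * t ^ (z : ℕ) := by
      rw [← pow_add]; congr 1; have := z.2; omega
    rw [this]; ring
  let M1 := fun r => raw1 (Fin p) n ((A r).map ζ) (F r)
  let M2 := fun r => raw2 (Fin p) m0 (tA r) (tB r) (tC r) (tD r)
  let raw : R → Matrix ((α × Fin p) ⊕ (ν × Fin n)) ((α × Fin p) ⊕ (ν × Fin n))
    (K0 × G T (Fin p)) := fun r => Matrix.of fun i j => (M1 r i j, M2 r i j)
  let s : G T (Fin p) := ⟨0, 0, t ^ n⟩
  let P : Subring (K0 × G T (Fin p)) := PS p t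
  let u : P := ⟨(p, -s), 0, by simpa using hp2, by simp [s]⟩
  have hmem : ∀ r i j, raw r i j ∈ P := by
    intro r i j
    obtain ⟨k, hk1, hk2⟩ := hk r
    rcases i with ⟨i, c⟩ | ⟨m, i⟩ <;> rcases j with ⟨j, d⟩ | ⟨m', j⟩
    · change (ζ (A r i j) * (1 : Matrix (Fin p) (Fin p) K0) c d,
        inj0 T (Fin p) (ap (A r i j)) * (1 : Matrix (Fin p) (Fin p) (G T (Fin p))) c d) ∈ P
      obtain ⟨l, hl⟩ := ZMod.intCast_surjective (A r i j)
      by_cases h : c = d
      · subst h
        refine ⟨l, ?_, ?_⟩
        · simp [← hl]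
        · simp [← hl]
      · refine ⟨0, ?_, ?_⟩
        · simp [h]
        · simp [h]
    · change ((0 : K0), if m' = m0 then (⟨0, Pi.single c (tB r i j), 0⟩ : G T (Fin p)) else 0) ∈ P
      refine ⟨0, by simp, ?_⟩
      by_cases h : m' = m0 <;> simp [h]
    · change ((0 : K0), if m = m0 then (⟨0, Pi.single d (tC r i j), 0⟩ : G T (Fin p)) else 0) ∈ P
      refine ⟨0, by simp, ?_⟩
      by_cases h : m = m0 <;> simp [h]
    · change (F r m m' * (1 : Matrix (Fin n) (Fin n) K0) i j,
        (1 : Matrix ν ν (G T (Fin p))) m m' * inj0 T (Fin p) (tD r i j)) ∈ P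
      have hk1' := hk1 m m'
      by_cases h : m = m'
      · subst h
        by_cases h' : i = j
        · subst h'
          refine ⟨k, ?_, ?_⟩
          · simpa using hk1'
          · simp [tD, hk2]
        · refine ⟨0, ?_, ?_⟩
          · simp [h']
          · rcases lt_or_gt_of_ne h' with h2 | h2
            · simp [tD, tri r i j h2]
            · have h3 : (i : ℕ) - j ≠ 0 := by
                have := Fin.lt_def.1 h2
                omega
              have : t ∣ tD r i j := Dvd.dvd.mul_right (dvd_pow_self t h3) _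
              simpa using this
      · refine ⟨0, ?_, ?_⟩
        · by_cases h' : i = j
          · subst h'
            simpa [h] using hk1'
          · simp [h']
        · simp [h]
  have hone : raw 1 = 1 := by
    have e1 : M1 1 = 1 := by
      simp only [M1, oA, map_one]
      rw [Matrix.map_one _ (map_zero ζ) (map_one ζ), raw1_one]
    have e2 : M2 1 = 1 := by
      have a1 : tA 1 = 1 := by simp only [tA, oA]; exact Matrix.map_one _ (map_zero ap) (map_one ap)
      have a2 : tB 1 = 0 := by ext i j; simp [tB, oB]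
      have a3 : tC 1 = 0 := by ext i j; simp [tC, oC]
      have a4 : tD 1 = 1 := by
        ext i j
        by_cases h : i = j
        · subst h; simp [tD, oD]
        · simp [tD, oD, Matrix.one_apply, h]
      simp only [M2, a1, a2, a3, a4]
      exact raw2_one m0
    ext1 i j
    change (M1 1 i j, M2 1 i j) = _
    rw [e1, e2]
    by_cases h : i = j
    · subst h; simp
    · simp [Matrix.one_apply, h]
  have hadd : ∀ r r', raw (r + r') = raw r + raw r' := by
    intro r r'
    have e1 : M1 (r + r') = M1 r + M1 r' := by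
      simp only [M1, aA, map_add]
      rw [← raw1_add]
      congr 1
      ext i j; simp
    have e2 : M2 (r + r') = M2 r + M2 r' := by
      simp only [M2]
      rw [← raw2_add]
      congr 1
      · ext i j; simp [tA, aA]
      · ext i j; simp [tB, aB, mul_add]
      · ext i j; simp [tC, aC, mul_add]
      · ext i j; simp [tD, aD, mul_add]
    ext1 i j
    change (M1 (r + r') i j, M2 (r + r') i j) = (M1 r i j + M1 r' i j, M2 r i j + M2 r' i j)
    rw [e1, e2]; rfl
  have hmul : ∀ r r' i j, ∃ m : ℤ, raw (r * r') i j = (raw r * raw r') i j + m * (u : K0 × G T (Fin p)) := by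
    intro r r' i j
    have e0 : (raw r * raw r') i j = ((M1 r * M1 r') i j, (M2 r * M2 r') i j) := by
      simp only [Matrix.mul_apply]
      apply Prod.ext
      · rw [Prod.fst_sum]; rfl
      · rw [Prod.snd_sum]; rfl
    have e1 : M1 r * M1 r' = raw1 (Fin p) n ((A r).map ζ * (A r').map ζ) (F r * F r') :=
      raw1_mul _ _ _ _
    have e2 : M2 r * M2 r' = M2 (r * r') + corr (Fin p) ν n (tB r * tC r') := by
      simp only [M2]
      rw [raw2_mul hκ, mtA, mtB, mtC, mtD]
    rw [e0, e1, e2]
    change ∃ m : ℤ, (M1 (r * r') i j, M2 (r * r') i j) = _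
    rcases i with ⟨i, c⟩ | ⟨m, i⟩ <;> rcases j with ⟨j, d⟩ | ⟨m', j⟩
    · by_cases h : c = d
      · subst h
        obtain ⟨l, hl⟩ := ZMod.intCast_surjective ((B r * C r') i j)
        refine ⟨l, ?_⟩
        have x1 : mulp ((B r * C r') i j) = l * p := by
          have : ((l : ℤ) : ZMod p) = l • (1 : ZMod p) := by simp
          rw [← hl, this, map_zsmul, hmulp, zsmul_eq_mul]
        have x2 : M1 (r * r') (Sum.inl (i, c)) (Sum.inl (j, c)) = ζ (A (r * r') i j) := by
          simp [M1, raw1]
        have x3 : raw1 (Fin p) n ((A r).map ζ * (A r').map ζ) (F r * F r') (Sum.inl (i, c))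
            (Sum.inl (j, c)) = ζ ((A r * A r') i j) := by
          simp [raw1, Matrix.mul_apply]
        have x4 : corr (Fin p) ν n (tB r * tC r') (Sum.inl (i, c)) (Sum.inl (j, c)) =
            ⟨0, 0, t ^ n * (l : T)⟩ := by
          have : ((l : ℤ) : T) = al ((B r * C r') i j) := by rw [← hl, map_intCast]
          simp only [corr, fromBlocks_apply₁₁, Matrix.of_apply, if_true, mBC, this]
        rw [Matrix.add_apply, x2, x3, x4, mA, Matrix.add_apply, Matrix.map_apply, x1]
        apply Prod.ext
        · simp [u]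
        · have : (((l : ℤ) : K0 × G T (Fin p)) * (u : K0 × G T (Fin p))).2 = -((l : ℤ) • s) := by
            simp [u]
          change _ = _ + (((l : ℤ) : K0 × G T (Fin p)) * (u : K0 × G T (Fin p))).2
          rw [this]
          have h5 : (l : ℤ) • s = ⟨0, 0, t ^ n * (l : T)⟩ := by
            have : (l : ℤ) • s = (inj0 T (Fin p) (l : T)) * s := by
              rw [map_intCast, zsmul_eq_mul]
            rw [this]
            ext <;> simp [s, mul_comm]
          rw [h5]
          simp
      · refine ⟨0, ?_⟩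
        simp [M1, raw1, corr, h]
    · exact ⟨0, by simp [M1, raw1, corr]⟩
    · exact ⟨0, by simp [M1, raw1, corr]⟩
    · exact ⟨0, by simp [M1, raw1, corr]⟩
  obtain ⟨K, hK, f, hf⟩ := quotHom P u raw hmem hone hadd hmul
  have hf' : ∀ r, f r = 0 → ∀ i j, ∃ k : ℤ, M1 r i j = k * p ∧ M2 r i j = ⟨0, 0, -(k * t ^ n)⟩ := by
    intro r hr i j
    obtain ⟨⟨x, g⟩, ⟨k, h1, y, h2⟩, h3⟩ := hf r hr i j
    have h4 := congrArg Prod.fst h3
    have h5 := congrArg Prod.snd h3
    refine ⟨k, ?_, ?_⟩
    · have h4' : M1 r i j = x * p := h4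
      rw [h4']
      linear_combination h1
    · have h5' : M2 r i j = g * (-s) := h5
      rw [h5']
      have h6 : g.a * t ^ n = k * t ^ n := by
        have : g.a = k + t * y := by linear_combination h2
        rw [this]
        linear_combination y * htN
      ext <;> simp [s, h6]
  have hinj : Function.Injective f := by
    rw [injective_iff_map_eq_zero]
    intro r hr
    have ent := hf' r hr
    apply inj r
    · ext i j
      obtain ⟨k, h1, h2⟩ := ent (Sum.inl (i, c0)) (Sum.inl (j, c0))
      have h3 := congrArg G.b h2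
      have h4 : (0 : T) = -(k * t ^ n) := by
        have h0 : (M2 r (Sum.inl (i, c0)) (Sum.inl (j, c0))).b = 0 := by simp [M2, raw2]
        exact h0.symm.trans h3
      have h5 : ((k : ℤ) : ZMod p) = 0 := by
        apply ht0
        rw [map_intCast]
        linear_combination h4
      obtain ⟨l, rfl⟩ := (ZMod.intCast_zmod_eq_zero_iff_dvd _ p).1 h5
      have h6 : ζ (A r i j) = 0 := by
        have : M1 r (Sum.inl (i, c0)) (Sum.inl (j, c0)) = ζ (A r i j) := by simp [M1, raw1]
        rw [← this, h1]
        push_cast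
        linear_combination (l : K0) * hp2
      have h7 := ZMod.castHom_injective (n := p ^ 2) K0 (h6.trans (map_zero ζ).symm)
      simpa using h7
    · ext i j
      obtain ⟨k, h1, h2⟩ := ent (Sum.inl (i, c0)) (Sum.inr (m0, j))
      have h3 := congrArg (fun g => g.v c0) h2
      have h4 : t ^ (n - (j : ℕ)) * al (B r i j) = 0 := by
        have : (M2 r (Sum.inl (i, c0)) (Sum.inr (m0, j))).v c0 = t ^ (n - (j : ℕ)) * al (B r i j) := by
          simp [M2, raw2, tB]
        rw [← this]; exact h3
      have h5 : B r i j = 0 := by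
        apply ht0
        have : t ^ n = t ^ (n - (j : ℕ)) * t ^ (j : ℕ) := by
          rw [← pow_add]; congr 1; have := j.2; omega
        rw [this]
        linear_combination t ^ (j : ℕ) * h4
      simpa using h5
    · ext j i
      obtain ⟨k, h1, h2⟩ := ent (Sum.inr (m0, j)) (Sum.inl (i, c0))
      have h3 := congrArg (fun g => g.v c0) h2
      have h4 : t ^ (j : ℕ) * al (C r j i) = 0 := by
        have : (M2 r (Sum.inr (m0, j)) (Sum.inl (i, c0))).v c0 = t ^ (j : ℕ) * al (C r j i) := by
          simp [M2, raw2, tC]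
        rw [← this]; exact h3
      have h5 : C r j i = 0 := by
        apply ht0
        have : t ^ n = t ^ (n - (j : ℕ)) * t ^ (j : ℕ) := by
          rw [← pow_add]; congr 1; have := j.2; omega
        rw [this]
        linear_combination t ^ (n - (j : ℕ)) * h4
      simpa using h5
    · ext i j
      rcases lt_or_ge i j with h | h
      · simp [tri r i j h]
      obtain ⟨k, h1, h2⟩ := ent (Sum.inr (m0, i)) (Sum.inr (m0, j))
      have h3 := congrArg G.a h2
      have h4 : t ^ ((i : ℕ) - j) * al (D r i j) = 0 := by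
        have : (M2 r (Sum.inr (m0, i)) (Sum.inr (m0, j))).a = t ^ ((i : ℕ) - j) * al (D r i j) := by
          change ((1 : Matrix ν ν (G T (Fin p))) m0 m0 * inj0 T (Fin p) (tD r i j)).a = _
          rw [Matrix.one_apply_eq, one_mul]
          rfl
        rw [← this]; exact h3
      have h5 : D r i j = 0 := by
        apply ht0
        have : t ^ n = t ^ ((i : ℕ) - j) * t ^ (n - ((i : ℕ) - j)) := by
          rw [← pow_add]; congr 1; have := i.2; omega
        rw [this]
        linear_combination t ^ (n - ((i : ℕ) - j)) * h4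
      simpa using h5
  let e := Fintype.equivFin ((α × Fin p) ⊕ (ν × Fin n))
  exact ⟨K, hK, Fintype.card ((α × Fin p) ⊕ (ν × Fin n)),
    (Matrix.reindexRingEquiv K e : _ →+* _).comp f,
    (Matrix.reindexRingEquiv K e).injective.comp hinj⟩

end Pool.Agent.J795.Rep
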