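import Mathlib
import Pool.Agent.J795.Rep.Sys2

/-! From a decomposition of the additive group to the block matrices. -/

set_option autoImplicit false
set_option linter.unusedSectionVars false

namespace Pool.Agent.J795.Rep

open Matrix

/-- multiplication by `p` from `ZMod p` to `ZMod (p ^ 2)` -/
def mulp (p : ℕ) : ZMod p →+ ZMod (p ^ 2) :=
  ZMod.lift p ⟨zmultiplesHom (ZMod (p ^ 2)) (p : ZMod (p ^ 2)), by
    rw [zmultiplesHom_apply, natCast_zsmul, nsmul_eq_mul, ← Nat.cast_mul, ← sq, ZMod.natCast_self]⟩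

theorem mulp_int (p : ℕ) (k : ℤ) : mulp p (k : ZMod p) = k * p := by
  unfold mulp
  rw [ZMod.lift_coe]
  simp

theorem mulp_one (p : ℕ) : mulp p 1 = p := by
  have := mulp_int p 1
  simpa using this

theorem mulp_red (p : ℕ) (x : ZMod (p ^ 2)) : mulp p (red p x) = p * x := by
  obtain ⟨k, rfl⟩ := ZMod.intCast_surjective x
  rw [map_intCast, mulp_int, mul_comm]

theorem mulp_inj (p : ℕ) (hp : 0 < p) (x : ZMod p) (h : mulp p x = 0) : x = 0 := by
  obtain ⟨k, rfl⟩ := ZMod.intCast_surjective x
  rw [mulp_int] at h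
  have h1 : ((k * p : ℤ) : ZMod (p ^ 2)) = 0 := by push_cast; exact h
  rw [ZMod.intCast_zmod_eq_zero_iff_dvd] at h1
  rw [ZMod.intCast_zmod_eq_zero_iff_dvd]
  push_cast at h1
  rw [sq] at h1
  exact Int.dvd_of_mul_dvd_mul_right (by exact_mod_cast hp.ne') h1

theorem mulp_surj (p : ℕ) (hp : 0 < p) (x : ZMod (p ^ 2)) (h : (p : ZMod (p ^ 2)) * x = 0) :
    ∃ y, mulp p y = x := by
  obtain ⟨k, rfl⟩ := ZMod.intCast_surjective x
  have h1 : ((p * k : ℤ) : ZMod (p ^ 2)) = 0 := by push_cast; exact h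
  rw [ZMod.intCast_zmod_eq_zero_iff_dvd] at h1
  push_cast at h1
  rw [sq] at h1
  obtain ⟨l, rfl⟩ := Int.dvd_of_mul_dvd_mul_left (by exact_mod_cast hp.ne') h1
  exact ⟨(l : ZMod p), by rw [mulp_int]; push_cast; ring⟩

theorem fromData {R : Type} [Ring R] (p : ℕ) [Fact p.Prime]
    {K0 T α ν : Type} [CommRing K0] [CommRing T] [Fintype α] [DecidableEq α] [Fintype ν]
    [DecidableEq ν] (m0 : ν) {n : ℕ} [CharP K0 (p ^ 2)] (F : R →+* Matrix ν ν K0)
    (al : ZMod p →+* T) (t : T)
    (htN : t ^ (n + 1) = 0) (ht0 : ∀ x : ZMod p, al x * t ^ n = 0 → x = 0)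
    (q : α → R) (u : Fin n → R) (PA : α → R →+ ZMod (p ^ 2)) (PD : Fin n → R →+ ZMod p)
    (hq1 : ∀ i j, PA i (q j) = if i = j then 1 else 0) (hq2 : ∀ j i, PD j (q i) = 0)
    (hu1 : ∀ i j, PA i (u j) = 0) (hu2 : ∀ i j, PD i (u j) = if i = j then 1 else 0)
    (hinj : ∀ v, (∀ i, PA i v = 0) → (∀ j, PD j v = 0) → v = 0)
    (tri : ∀ r i j, i < j → PD i (r * u j) = 0)
    (hk : ∀ r, ∃ k : ℤ, (∀ i j, (p : K0) * (F r i j - (if i = j then (k : K0) else 0)) = 0) ∧
      ∀ i, PD i (r * u i) = k) :
    ∃ (C : Type) (_ : CommRing C) (n : ℕ) (f : R →+* Matrix (Fin n) (Fin n) C),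
      Function.Injective f := by
  classical
  have hp1 : 0 < p := (Fact.out : p.Prime).pos
  have inj' : ∀ v w, (∀ i, PA i v = PA i w) → (∀ j, PD j v = PD j w) → v = w := by
    intro v w h1 h2
    rw [← sub_eq_zero]
    apply hinj
    · intro i; rw [map_sub, h1, sub_self]
    · intro i; rw [map_sub, h2, sub_self]
  have expand : ∀ (v : R) (c : α → ℤ) (d : Fin n → ℤ), (∀ i, PA i v = c i) → (∀ j, PD j v = d j) →
      v = ∑ i, c i • q i + ∑ j, d j • u j := by
    intro v c d h1 h2
    apply inj'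
    · intro i
      rw [map_add, map_sum, map_sum]
      simp only [map_zsmul, hq1, hu1, h1]
      simp
    · intro i
      rw [map_add, map_sum, map_sum]
      simp only [map_zsmul, hq2, hu2, h2]
      simp
  have pu : ∀ j, p • u j = 0 := by
    intro j
    apply hinj
    · intro i; rw [map_nsmul, hu1, smul_zero]
    · intro i; rw [map_nsmul, nsmul_eq_mul, ZMod.natCast_self, zero_mul]
  have hBp : ∀ r i j, ∃ y, mulp p y = PA i (r * u j) := by
    intro r i j
    apply mulp_surj p hp1
    rw [← nsmul_eq_mul, ← map_nsmul, ← mul_smul_comm, pu, mul_zero, map_zero]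
  choose Bf hBf using hBp
  have minj : ∀ x y, mulp p x = mulp p y → x = y := by
    intro x y h
    rw [← sub_eq_zero]
    apply mulp_inj p hp1
    rw [map_sub, h, sub_self]
  have mulp_zs : ∀ (k : ℤ) (x : ZMod p), k • mulp p x = mulp p ((k : ZMod p) * x) := by
    intro k x
    rw [← map_zsmul, zsmul_eq_mul]
  refine system2 p m0 F al t htN ht0 (fun r => Matrix.of fun i j => PA i (r * q j))
    (fun r => Matrix.of fun i j => Bf r i j) (fun r => Matrix.of fun j i => PD j (r * q i))
    (fun r => Matrix.of fun i j => PD i (r * u j)) (mulp p) (mulp_one p)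
    ?_ ?_ ?_ ?_ ?_ ?_ ?_ ?_ ?_ ?_ ?_ ?_ tri hk ?_
  · intro r s; ext i j; simp [add_mul]
  · intro r s; ext i j
    apply minj
    simp only [Matrix.add_apply, Matrix.of_apply, map_add, hBf, add_mul]
  · intro r s; ext i j; simp [add_mul]
  · intro r s; ext i j; simp [add_mul]
  · ext i j; simp [hq1, Matrix.one_apply]
  · ext i j
    apply minj
    simp [hBf, hu1]
  · ext i j; simp [hq2]
  · ext i j; simp [hu2, Matrix.one_apply]
  · intro r s
    ext i l
    obtain ⟨c, hc⟩ : ∃ c : α → ℤ, ∀ i, (c i : ZMod (p ^ 2)) = PA i (s * q l) :=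
      ⟨fun i => (ZMod.intCast_surjective (PA i (s * q l))).choose,
        fun i => (ZMod.intCast_surjective (PA i (s * q l))).choose_spec⟩
    obtain ⟨d, hd⟩ : ∃ d : Fin n → ℤ, ∀ i, (d i : ZMod p) = PD i (s * q l) :=
      ⟨fun i => (ZMod.intCast_surjective (PD i (s * q l))).choose,
        fun i => (ZMod.intCast_surjective (PD i (s * q l))).choose_spec⟩
    have hv := expand (s * q l) c d (fun i => (hc i).symm) (fun i => (hd i).symm)
    simp only [Matrix.of_apply, Matrix.add_apply, Matrix.mul_apply, Matrix.map_apply, map_sum]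
    rw [mul_assoc, hv, mul_add, Finset.mul_sum, Finset.mul_sum, map_add, map_sum, map_sum]
    congr 1
    · refine Finset.sum_congr rfl fun z _ => ?_
      rw [mul_smul_comm, map_zsmul, zsmul_eq_mul, hc, ← hv, mul_comm]
    · refine Finset.sum_congr rfl fun z _ => ?_
      rw [mul_smul_comm, map_zsmul, ← hBf, mulp_zs, hd, ← hv, mul_comm]
  · intro r s
    ext i l
    apply minj
    obtain ⟨c, hc⟩ : ∃ c : α → ℤ, ∀ i, (c i : ZMod p) = Bf s i l :=
      ⟨fun i => (ZMod.intCast_surjective (Bf s i l)).choose,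
        fun i => (ZMod.intCast_surjective (Bf s i l)).choose_spec⟩
    obtain ⟨d, hd⟩ : ∃ d : Fin n → ℤ, ∀ i, (d i : ZMod p) = PD i (s * u l) :=
      ⟨fun i => (ZMod.intCast_surjective (PD i (s * u l))).choose,
        fun i => (ZMod.intCast_surjective (PD i (s * u l))).choose_spec⟩
    have hv := expand (s * u l) (fun i => c i * p) d (fun i => by
      rw [← hBf, ← hc, mulp_int]; push_cast; rfl) (fun i => (hd i).symm)
    simp only [Matrix.of_apply, Matrix.add_apply, Matrix.mul_apply, Matrix.map_apply, map_sum,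
      hBf, map_add]
    rw [mul_assoc, hv, mul_add, Finset.mul_sum, Finset.mul_sum, map_add, map_sum, map_sum]
    congr 1
    · refine Finset.sum_congr rfl fun z _ => ?_
      rw [mul_smul_comm, map_zsmul, ← hc, mul_comm (red p _), ← mulp_zs, mulp_red, zsmul_eq_mul,
        zsmul_eq_mul]
      push_cast
      ring
    · refine Finset.sum_congr rfl fun z _ => ?_
      rw [mul_smul_comm, map_zsmul, ← hBf, mulp_zs, hd, ← hv, mul_comm]
  · intro r s
    ext j l
    obtain ⟨c, hc⟩ : ∃ c : α → ℤ, ∀ i, (c i : ZMod (p ^ 2)) = PA i (s * q l) :=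
      ⟨fun i => (ZMod.intCast_surjective (PA i (s * q l))).choose,
        fun i => (ZMod.intCast_surjective (PA i (s * q l))).choose_spec⟩
    obtain ⟨d, hd⟩ : ∃ d : Fin n → ℤ, ∀ i, (d i : ZMod p) = PD i (s * q l) :=
      ⟨fun i => (ZMod.intCast_surjective (PD i (s * q l))).choose,
        fun i => (ZMod.intCast_surjective (PD i (s * q l))).choose_spec⟩
    have hv := expand (s * q l) c d (fun i => (hc i).symm) (fun i => (hd i).symm)
    simp only [Matrix.of_apply, Matrix.add_apply, Matrix.mul_apply, Matrix.map_apply]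
    rw [mul_assoc, hv, mul_add, Finset.mul_sum, Finset.mul_sum, map_add, map_sum, map_sum]
    congr 1
    · refine Finset.sum_congr rfl fun z _ => ?_
      rw [mul_smul_comm, map_zsmul, zsmul_eq_mul, ← hv, ← hc, map_intCast, mul_comm]
    · refine Finset.sum_congr rfl fun z _ => ?_
      rw [mul_smul_comm, map_zsmul, zsmul_eq_mul, hd, ← hv, mul_comm]
  · intro r s
    ext j l
    obtain ⟨c, hc⟩ : ∃ c : α → ℤ, ∀ i, (c i : ZMod p) = Bf s i l :=
      ⟨fun i => (ZMod.intCast_surjective (Bf s i l)).choose,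
        fun i => (ZMod.intCast_surjective (Bf s i l)).choose_spec⟩
    obtain ⟨d, hd⟩ : ∃ d : Fin n → ℤ, ∀ i, (d i : ZMod p) = PD i (s * u l) :=
      ⟨fun i => (ZMod.intCast_surjective (PD i (s * u l))).choose,
        fun i => (ZMod.intCast_surjective (PD i (s * u l))).choose_spec⟩
    have hv := expand (s * u l) (fun i => c i * p) d (fun i => by
      rw [← hBf, ← hc, mulp_int]; push_cast; rfl) (fun i => (hd i).symm)
    simp only [Matrix.of_apply, Matrix.mul_apply]
    rw [mul_assoc, hv, mul_add, Finset.mul_sum, Finset.mul_sum, map_add, map_sum, map_sum]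
    have h0 : ∑ x, PD j (r * (c x * p) • q x) = 0 := by
      refine Finset.sum_eq_zero fun z _ => ?_
      rw [mul_smul_comm, map_zsmul, zsmul_eq_mul]
      push_cast
      rw [ZMod.natCast_self, mul_zero, zero_mul]
    rw [h0, zero_add]
    refine Finset.sum_congr rfl fun z _ => ?_
    rw [mul_smul_comm, map_zsmul, zsmul_eq_mul, hd, ← hv, mul_comm]
  · intro r h1 h2 h3 h4
    have e1 : ∀ i, r * q i = 0 := by
      intro i
      apply hinj
      · intro j; exact congrFun (congrFun h1 j) i
      · intro j; exact congrFun (congrFun h3 j) i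
    have e2 : ∀ i, r * u i = 0 := by
      intro i
      apply hinj
      · intro j
        rw [← hBf]
        have : Bf r j i = 0 := congrFun (congrFun h2 j) i
        rw [this, map_zero]
      · intro j; exact congrFun (congrFun h4 j) i
    have hv := expand 1 (fun i => (ZMod.intCast_surjective (PA i 1)).choose)
      (fun i => (ZMod.intCast_surjective (PD i 1)).choose)
      (fun i => ((ZMod.intCast_surjective (PA i 1)).choose_spec).symm)
      (fun i => ((ZMod.intCast_surjective (PD i 1)).choose_spec).symm)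
    have h5 : r * 1 = 0 := by
      rw [hv, mul_add, Finset.mul_sum, Finset.mul_sum]
      simp only [mul_smul_comm, e1, e2, smul_zero, Finset.sum_const_zero, add_zero]
    simpa using h5

end Pool.Agent.J795.Rep
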