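import Mathlib

/-! Finite abelian groups killed by `p ^ 2`. -/

set_option autoImplicit false

namespace Pool.Agent.J795.Rep

open DirectSum

theorem decomp {V : Type} [AddCommGroup V] [Finite V] (p : ℕ) (hp : p.Prime)
    (h : ∀ v : V, (p ^ 2) • v = 0) :
    ∃ (α β : Type) (_ : Fintype α) (_ : Fintype β),
      Nonempty (V ≃+ (α → ZMod (p ^ 2)) × (β → ZMod p)) := by
  classical
  obtain ⟨ι, hι, n, hn, ⟨e⟩⟩ := AddCommGroup.equiv_directSum_zmod_of_finite' V
  have hn' : ∀ i, n i = p ∨ n i = p ^ 2 := by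
    intro i
    have h1 : (p ^ 2) • (DirectSum.of (fun i => ZMod (n i)) i 1) = 0 := by
      rw [← e.apply_symm_apply (DirectSum.of (fun i => ZMod (n i)) i 1), ← map_nsmul, h, map_zero]
    rw [← map_nsmul] at h1
    have h2 := (DirectSum.of_injective (β := fun i => ZMod (n i)) i) (h1.trans (map_zero _).symm)
    have h3 : ((p ^ 2 : ℕ) : ZMod (n i)) = 0 := by
      rw [nsmul_eq_mul, mul_one] at h2
      exact h2
    rw [ZMod.natCast_eq_zero_iff] at h3
    obtain ⟨k, hk, hk'⟩ := (Nat.dvd_prime_pow hp).1 h3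
    have := hn i
    interval_cases k
    · simp at hk'; omega
    · left; simpa using hk'
    · right; exact hk'
  let α := {i : ι // n i = p}
  let β := {i : ι // ¬ n i = p}
  let e1 : (⨁ i, ZMod (n i)) ≃+ (∀ i, ZMod (n i)) := DirectSum.addEquivProd _
  let e2 : (∀ i, ZMod (n i)) ≃+ (∀ i : α, ZMod (n i)) × (∀ i : β, ZMod (n i)) :=
    { Equiv.piEquivPiSubtypeProd (fun i => n i = p) (fun i => ZMod (n i)) with
      map_add' := fun x y => rfl }
  let e3 : (∀ i : α, ZMod (n i)) ≃+ (α → ZMod p) :=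
    AddEquiv.piCongrRight fun i => (ZMod.ringEquivCongr i.2).toAddEquiv
  let e4 : (∀ i : β, ZMod (n i)) ≃+ (β → ZMod (p ^ 2)) :=
    AddEquiv.piCongrRight fun i => (ZMod.ringEquivCongr ((hn' i).resolve_left i.2)).toAddEquiv
  exact ⟨β, α, inferInstance, inferInstance,
    ⟨((e.trans e1).trans e2).trans ((AddEquiv.prodCongr e3 e4).trans AddEquiv.prodComm)⟩⟩

end Pool.Agent.J795.Rep
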