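import Mathlib

/-! A basis in which a family of maps that shift a filtration is strictly triangular. -/

set_option autoImplicit false

namespace Pool.Agent.J795.Rep

open Submodule

variable {k V ι : Type} [Field k] [AddCommGroup V] [Module k V] [FiniteDimensional k V]

theorem tri_aux (S : ι → V →ₗ[k] V) (F : ℕ → Submodule k V) (h0 : F 0 = ⊤) (m : ℕ)
    (hm : F m = ⊥) (hdec : Antitone F) (hS : ∀ s i, ∀ x ∈ F i, S s x ∈ F (i + 1)) (d : ℕ) :
    ∀ W : Submodule k V, Module.finrank k W = d → (∀ j, W ≤ F j ∨ F j ≤ W) →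
      ∃ (n : ℕ) (v : Fin n → V), LinearIndependent k v ∧ span k (Set.range v) = W ∧
        ∀ s i, S s (v i) ∈ span k (v '' {j | i < j}) := by
  induction d using Nat.strong_induction_on with
  | _ d ih =>
    intro W hW hgood
    by_cases hbot : W = ⊥
    · subst hbot
      exact ⟨0, Fin.elim0, linearIndependent_empty_type, by simp, fun s i => i.elim0⟩
    · -- the last `i` with `W ≤ F i`
      have hex : ∃ i, W ≤ F i ∧ ¬ W ≤ F (i + 1) := by
        by_contra hcon
        push Not at hcon
        have : ∀ i, W ≤ F i := by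
          intro i
          induction i with
          | zero => rw [h0]; exact le_top
          | succ i hi => exact hcon i hi
        exact hbot (le_bot_iff.1 (hm ▸ this m))
      obtain ⟨i, hi1, hi2⟩ := hex
      have hi3 : F (i + 1) < W := lt_of_le_of_ne ((hgood (i + 1)).resolve_left hi2)
        (fun h => hi2 h.ge)
      -- a maximal proper subspace
      obtain ⟨H, hFH, hHW⟩ : ∃ H, F (i + 1) ≤ H ∧ H ⋖ W := by
        exact IsStronglyCoatomic.exists_le_covBy_of_lt (F (i + 1)) W hi3
      obtain ⟨y, hyW, hyH⟩ := SetLike.exists_of_lt hHW.lt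
      have hsup : H ⊔ span k {y} = W := by
        have h1 : H < H ⊔ span k {y} := by
          refine lt_of_le_of_ne le_sup_left fun h => hyH ?_
          rw [h]
          exact mem_sup_right (mem_span_singleton_self y)
        have h2 : H ⊔ span k {y} ≤ W := sup_le hHW.le (by simpa [span_le] using hyW)
        exact (hHW.eq_or_eq h1.le h2).resolve_left h1.ne'
      obtain ⟨n, v, hv1, hv2, hv3⟩ := ih (Module.finrank k H)
        (hW ▸ finrank_lt_finrank_of_lt hHW.lt) H rfl (fun j => by
          rcases le_or_gt j i with hj | hj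
          · exact Or.inl (hHW.le.trans (hi1.trans (hdec hj)))
          · exact Or.inr ((hdec hj).trans hFH))
      refine ⟨n + 1, Fin.cons y v, ?_, ?_, ?_⟩
      · rw [linearIndependent_finCons]
        exact ⟨hv1, hv2 ▸ hyH⟩
      · rw [Fin.range_cons, span_insert, hv2, sup_comm, hsup]
      · intro s j
        refine Fin.cases ?_ ?_ j
        · have h1 : S s y ∈ H := hFH (hS s i y (hi1 hyW))
          rw [← hv2] at h1
          refine span_mono ?_ h1
          rintro _ ⟨l, rfl⟩
          exact ⟨l.succ, Fin.succ_pos l, by simp⟩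
        · intro l
          have h1 := hv3 s l
          rw [Fin.cons_succ]
          refine span_mono ?_ h1
          rintro _ ⟨l', hl', rfl⟩
          exact ⟨l'.succ, Fin.succ_lt_succ_iff.2 hl', by simp⟩

theorem exists_tri (S : ι → V →ₗ[k] V) (F : ℕ → Submodule k V) (h0 : F 0 = ⊤) (m : ℕ)
    (hm : F m = ⊥) (hdec : Antitone F) (hS : ∀ s i, ∀ x ∈ F i, S s x ∈ F (i + 1)) :
    ∃ (n : ℕ) (b : Module.Basis (Fin n) k V), ∀ s i j, j ≤ i → b.repr (S s (b i)) j = 0 := by
  obtain ⟨n, v, hv1, hv2, hv3⟩ := tri_aux S F h0 m hm hdec hS _ ⊤ rfl (fun j => by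
    rcases Nat.eq_zero_or_pos j with h | h
    · subst h; rw [h0]; exact Or.inl le_rfl
    · exact Or.inr le_top)
  let b := Module.Basis.mk hv1 hv2.ge
  refine ⟨n, b, fun s i j hij => ?_⟩
  have hb : ∀ i, b i = v i := fun i => by simp [b]
  have h := hv3 s i
  have h' : S s (b i) ∈ span k (b '' {j | i < j}) := by
    have : (b : Fin n → V) = v := funext hb
    rw [this]; exact h
  rw [Module.Basis.mem_span_image] at h'
  by_contra hne
  have := h' (Finsupp.mem_support_iff.2 hne)
  exact absurd this (not_lt.2 hij)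

end Pool.Agent.J795.Rep
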