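import Mathlib
import Pool.Agent.J795.Rep.Assemble
import Pool.Agent.J795.Rep.Tri

/-! The system of matrices attached to a nilpotent ring `J` with a distinguished annihilating
element `c`. -/

set_option autoImplicit false

namespace Pool.Agent.J795.Rep

open Matrix Polynomial

/-- `F_p[X] / (X ^ (N + 1))` -/
abbrev TR (p N : ℕ) : Type := (ZMod p)[X] ⧸ Ideal.span {(X : (ZMod p)[X]) ^ (N + 1)}

/-- the class of `X` -/
noncomputable def tt (p N : ℕ) : TR p N := Ideal.Quotient.mk _ X

theorem tt_pow (p N : ℕ) : (tt p N) ^ (N + 1) = 0 := by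
  unfold tt
  rw [← map_pow, Ideal.Quotient.eq_zero_iff_mem]
  exact Ideal.subset_span rfl

theorem tt_ne (p N : ℕ) (m : ℤ) (h : (m : TR p N) * (tt p N) ^ N = 0) : (p : ℤ) ∣ m := by
  unfold tt at h
  rw [← map_pow, ← map_intCast (Ideal.Quotient.mk (Ideal.span {(X : (ZMod p)[X]) ^ (N + 1)})) m,
    ← map_mul, Ideal.Quotient.eq_zero_iff_mem,
    Ideal.mem_span_singleton, Polynomial.X_pow_dvd_iff] at h
  have h1 := h N (Nat.lt_succ_self N)
  rw [← Polynomial.C_eq_intCast, Polynomial.coeff_C_mul, Polynomial.coeff_X_pow, if_pos rfl,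
    mul_one] at h1
  exact (ZMod.intCast_zmod_eq_zero_iff_dvd m p).1 h1

theorem TR_p (p N : ℕ) : ((p : ℕ) : TR p N) = 0 := by
  rw [← map_natCast (algebraMap (ZMod p) (TR p N)), ZMod.natCast_self, map_zero]

theorem exists_T (p N : ℕ) : ∃ (T : Type) (_ : CommRing T) (_ : ZMod p →+* T) (t : T),
    t ^ (N + 1) = 0 ∧ (∀ m : ℤ, (m : T) * t ^ N = 0 → (p : ℤ) ∣ m) ∧ (p : T) = 0 :=
  ⟨TR p N, inferInstance, algebraMap _ _, tt p N, tt_pow p N, tt_ne p N, TR_p p N⟩

section

variable {A : Type} [Ring A] {J : NonUnitalSubring A} {p : ℕ} [Fact p.Prime] [Module (ZMod p) J]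

theorem exists_functional (c : J) (hc : c ≠ 0) : ∃ lam : J →ₗ[ZMod p] ZMod p, lam c = 1 := by
  obtain ⟨g, hg⟩ := LinearMap.exists_leftInverse_of_injective
    (LinearMap.toSpanSingleton (ZMod p) J c) (LinearMap.ker_toSpanSingleton _ hc)
  refine ⟨g, ?_⟩
  have := LinearMap.congr_fun hg 1
  simpa using this

/-- left multiplication -/
noncomputable def mulL (a : J) : J →ₗ[ZMod p] J :=
  AddMonoidHom.toZModLinearMap p (AddMonoidHom.mulLeft a)

@[simp] theorem mulL_apply (a x : J) : (mulL a : J →ₗ[ZMod p] J) x = a * x := rfl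

/-- the projection along `c` -/
noncomputable def prj (lam : J →ₗ[ZMod p] ZMod p) (c : J) : J →ₗ[ZMod p] J :=
  LinearMap.id - lam.smulRight c

theorem prj_apply (lam : J →ₗ[ZMod p] ZMod p) (c x : J) : prj lam c x = x - lam x • c := rfl

/-- the action `a * x` modulo `c` -/
noncomputable def act (lam : J →ₗ[ZMod p] ZMod p) (c a : J) : J →ₗ[ZMod p] J :=
  prj lam c ∘ₗ mulL a

theorem act_apply (lam : J →ₗ[ZMod p] ZMod p) (c a x : J) :
    act lam c a x = prj lam c (a * x) := rfl

theorem mul_smul' (a : J) (k : ZMod p) (c : J) : a * (k • c) = k • (a * c) :=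
  map_smul (mulL a : J →ₗ[ZMod p] J) k c

theorem mul_prj (lam : J →ₗ[ZMod p] ZMod p) (c : J) (hc : ∀ a : J, a * c = 0) (a x : J) :
    a * prj lam c x = a * x := by
  rw [prj_apply, mul_sub, mul_smul', hc, smul_zero, sub_zero]

theorem act_mul (lam : J →ₗ[ZMod p] ZMod p) (c : J) (hc : ∀ a : J, a * c = 0) (a b : J) :
    act lam c (a * b) = act lam c a * act lam c b := by
  ext x
  change ((act lam c (a * b) x : J) : A) = ((act lam c a (act lam c b x) : J) : A)
  rw [act_apply, act_apply, act_apply, mul_prj lam c hc, mul_assoc]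

theorem act_add (lam : J →ₗ[ZMod p] ZMod p) (c : J) (a b : J) :
    act lam c (a + b) = act lam c a + act lam c b := by
  ext x
  change ((act lam c (a + b) x : J) : A) = ((act lam c a x + act lam c b x : J) : A)
  rw [act_apply, act_apply, act_apply, add_mul, map_add]

/-- the filtration -/
def filt (lam : J →ₗ[ZMod p] ZMod p) (c : J) : ℕ → Submodule (ZMod p) J
  | 0 => ⊤
  | i + 1 => Submodule.span (ZMod p) {y | ∃ a : J, ∃ x ∈ filt lam c i, y = act lam c a x}

theorem filt_anti (lam : J →ₗ[ZMod p] ZMod p) (c : J) : Antitone (filt lam c) := by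
  apply antitone_nat_of_succ_le
  intro n
  induction n with
  | zero => exact le_top
  | succ n ih =>
    apply Submodule.span_mono
    rintro y ⟨a, x, hx, rfl⟩
    exact ⟨a, x, ih hx, rfl⟩

theorem filt_mem (lam : J →ₗ[ZMod p] ZMod p) (c : J) (hc : ∀ a : J, a * c = 0)
    (I : Ideal A) [I.IsTwoSided] (hI : ∀ a, a ∈ J ↔ a ∈ I) (i : ℕ) :
    ∀ x ∈ filt lam c i, ∀ a : J, ∃ y : J, (y : A) ∈ I ^ (i + 2) ∧ act lam c a x = prj lam c y := by
  induction i with
  | zero =>
    intro x _ a
    refine ⟨a * x, ?_, rfl⟩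
    rw [Ideal.IsTwoSided.pow_succ, Submodule.pow_one]
    exact Ideal.mul_mem_mul ((hI _).1 a.2) ((hI _).1 x.2)
  | succ i ih =>
    intro x hx a
    induction hx using Submodule.span_induction with
    | mem y hy =>
      obtain ⟨b, z, hz, rfl⟩ := hy
      obtain ⟨y, hy1, hy2⟩ := ih z hz b
      refine ⟨a * y, ?_, ?_⟩
      · rw [Ideal.IsTwoSided.pow_succ]
        exact Ideal.mul_mem_mul ((hI _).1 a.2) hy1
      · rw [hy2, act_apply, mul_prj lam c hc]
    | zero => exact ⟨0, by simp, by simp⟩
    | add x y _ _ hx hy =>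
      obtain ⟨x', h1, h2⟩ := hx
      obtain ⟨y', h3, h4⟩ := hy
      exact ⟨x' + y', Ideal.add_mem _ h1 h3, by rw [map_add, map_add, h2, h4]⟩
    | smul k x _ hx =>
      obtain ⟨x', h1, h2⟩ := hx
      refine ⟨k • x', ?_, by rw [map_smul, map_smul, h2]⟩
      obtain ⟨n, rfl⟩ : ∃ n : ℕ, (n : ZMod p) = k := ⟨k.val, by simp⟩
      rw [Nat.cast_smul_eq_nsmul, AddSubmonoidClass.coe_nsmul]
      exact (I ^ (i + 1 + 2)).nsmul_mem h1 n

theorem core [Finite A] (hres : ∀ r : A, ∃ k : ℤ, r - k ∈ J) (hpJ : (p : A) ∈ J)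
    (hk : ∀ k : ℤ, (k : A) ∈ J → (p : ℤ) ∣ k) (hann : ∀ a ∈ J, (p : A) * a = 0)
    (I : Ideal A) [I.IsTwoSided] (hI : ∀ a, a ∈ J ↔ a ∈ I) (m : ℕ) (hm : I ^ m = ⊥)
    (hp0 : (p : A) ≠ 0) :
    ∃ (C : Type) (_ : CommRing C) (n : ℕ) (f : A →+* Matrix (Fin n) (Fin n) C),
      Function.Injective f := by
  classical
  let c : J := ⟨p, hpJ⟩
  have hc0 : c ≠ 0 := fun h => hp0 (congrArg Subtype.val h)
  have hc : ∀ a : J, a * c = 0 := by
    intro a
    apply Subtype.ext
    change (a : A) * p = 0
    rw [← (Nat.cast_commute p (a : A)).eq]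
    exact hann a a.2
  have hc' : ∀ a : J, c * a = 0 := fun a => Subtype.ext (hann a a.2)
  obtain ⟨lam, hlam⟩ := exists_functional (p := p) c hc0
  have : Module.Finite (ZMod p) J := Module.Finite.of_finite
  have hm' : filt lam c (m + 1) = ⊥ := by
    rw [eq_bot_iff]
    change Submodule.span _ _ ≤ _
    rw [Submodule.span_le]
    rintro y ⟨a, x, hx, rfl⟩
    obtain ⟨y, h1, h2⟩ := filt_mem lam c hc I hI m x hx a
    have h3 : (y : A) ∈ I ^ m := Ideal.pow_le_pow_right (by omega) h1
    rw [hm] at h3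
    have h4 : y = 0 := Subtype.ext h3
    rw [h2, h4, map_zero]
    exact Submodule.zero_mem _
  obtain ⟨n, b, hb⟩ := exists_tri (act lam c) (filt lam c) rfl (m + 1) hm' (filt_anti lam c)
    (fun s i x hx => Submodule.subset_span ⟨s, x, hx, rfl⟩)
  have : Nontrivial J := ⟨⟨c, 0, hc0⟩⟩
  have : Nonempty (Fin n) := b.index_nonempty
  have hp1 : 0 < p := (Fact.out : p.Prime).pos
  have : NeZero p := ⟨hp1.ne'⟩
  have : Nonempty (Fin p) := ⟨0⟩
  obtain ⟨T, hT, al, t, htN, htne, hTp⟩ := exists_T p n
  let rho : J → Matrix (Fin n) (Fin n) (ZMod p) := fun a => LinearMap.toMatrix b b (act lam c a)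
  have rho_apply : ∀ a x y, rho a x y = b.repr (act lam c a (b y)) x := fun a x y => by
    simp [rho, LinearMap.toMatrix_apply]
  have rho0 : ∀ a x y, ¬ y < x → rho a x y = 0 := by
    intro a x y h
    rw [rho_apply]
    exact hb a y x (not_lt.1 h)
  let del : J → Fin n → ZMod p := fun a => b.repr (prj lam c a)
  let eps : J → Fin n → ZMod p := fun a y => lam (a * b y)
  have mrho : ∀ a a', rho (a * a') = rho a * rho a' := by
    intro a a'
    simp only [rho, act_mul lam c hc, LinearMap.toMatrix_mul]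
  have mdel : ∀ a a', del (a * a') = rho a *ᵥ del a' := by
    intro a a'
    simp only [rho, del]
    rw [LinearMap.toMatrix_mulVec_repr, act_apply, mul_prj lam c hc]
  have meps : ∀ a a', eps (a * a') = eps a ᵥ* rho a' := by
    intro a a'
    ext y
    simp only [eps, Matrix.vecMul, dotProduct]
    have h1 : ∑ x, rho a' x y • b x = act lam c a' (b y) := by
      simp only [rho_apply]
      exact b.sum_repr _
    have h2 : lam (a * act lam c a' (b y)) = lam (a * a' * b y) := by
      rw [act_apply, mul_prj lam c hc, mul_assoc]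
    rw [← h2, ← h1, Finset.mul_sum, map_sum]
    refine Finset.sum_congr rfl fun x _ => ?_
    rw [mul_smul', map_smul, smul_eq_mul, mul_comm]
  have mlam : ∀ a a', lam (a * a') = eps a ⬝ᵥ del a' := by
    intro a a'
    simp only [eps, del, dotProduct]
    have h1 : ∑ x, b.repr (prj lam c a') x • b x = prj lam c a' := b.sum_repr _
    have h2 : lam (a * prj lam c a') = lam (a * a') := by rw [mul_prj lam c hc]
    rw [← h2]
    conv_lhs => rw [← h1]
    rw [Finset.mul_sum, map_sum]
    refine Finset.sum_congr rfl fun x _ => ?_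
    rw [mul_smul', map_smul, smul_eq_mul, mul_comm]
  let R0 : J → Matrix (Fin n) (Fin n) (T) := fun a =>
    Matrix.of fun x y => t ^ ((x : ℕ) - y) * al (rho a x y)
  let D0 : J → Fin n → T := fun a x => t ^ (x : ℕ) * al (del a x)
  let E0 : J → Fin n → T := fun a y => t ^ (n - (y : ℕ)) * al (eps a y)
  have mR0 : ∀ a a', R0 (a * a') = R0 a * R0 a' := by
    intro a a'
    ext x y
    simp only [R0, Matrix.mul_apply, Matrix.of_apply, mrho, map_sum, map_mul, Finset.mul_sum]
    refine Finset.sum_congr rfl fun z _ => ?_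
    by_cases h1 : z < x
    · by_cases h2 : y < z
      · have : (x : ℕ) - y = (x - z) + (z - y) := by
          have := Fin.lt_def.1 h1
          have := Fin.lt_def.1 h2
          omega
        rw [this, pow_add]; ring
      · simp [rho0 a' z y h2]
    · simp [rho0 a x z h1]
  have mD0 : ∀ a a', D0 (a * a') = R0 a *ᵥ D0 a' := by
    intro a a'
    ext x
    simp only [R0, D0, Matrix.mulVec, dotProduct, Matrix.of_apply, mdel, map_sum, map_mul,
      Finset.mul_sum]
    refine Finset.sum_congr rfl fun z _ => ?_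
    by_cases h1 : z < x
    · have : (x : ℕ) = (x - z) + z := by
        have := Fin.lt_def.1 h1
        omega
      conv_lhs => rw [this, pow_add]
      ring
    · simp [rho0 a x z h1]
  have mE0 : ∀ a a', E0 (a * a') = E0 a ᵥ* R0 a' := by
    intro a a'
    ext y
    simp only [R0, E0, Matrix.vecMul, dotProduct, Matrix.of_apply, meps, map_sum, map_mul,
      Finset.mul_sum]
    refine Finset.sum_congr rfl fun z _ => ?_
    by_cases h1 : y < z
    · have : n - (y : ℕ) = (n - z) + (z - y) := by
        have := Fin.lt_def.1 h1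
        have := z.2
        omega
      rw [this, pow_add]
      ring
    · simp [rho0 a' z y h1]
  have mL0 : ∀ a a', t ^ n * al (lam (a * a')) = E0 a ⬝ᵥ D0 a' := by
    intro a a'
    simp only [D0, E0, dotProduct, mlam, map_sum, map_mul, Finset.mul_sum]
    refine Finset.sum_congr rfl fun z _ => ?_
    have : t ^ n = t ^ (n - (z : ℕ)) * t ^ (z : ℕ) := by
      rw [← pow_add]; congr 1; have := z.2; omega
    rw [this]; ring
  -- padding
  let R : J → Matrix (Fin p × Fin n) (Fin p × Fin n) (T) := fun a =>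
    Matrix.of fun x y => if x.1 = 0 ∧ y.1 = 0 then R0 a x.2 y.2 else 0
  let D : J → Fin p × Fin n → T := fun a x => if x.1 = 0 then D0 a x.2 else 0
  let E : J → Fin p × Fin n → T := fun a x => if x.1 = 0 then E0 a x.2 else 0
  have aR0 : ∀ a a', R0 (a + a') = R0 a + R0 a' := by
    intro a a'
    ext x y
    simp [R0, rho, act_add, mul_add]
  have aD0 : ∀ a a', D0 (a + a') = D0 a + D0 a' := by
    intro a a'
    ext x
    simp [D0, del, mul_add]
  have aE0 : ∀ a a', E0 (a + a') = E0 a + E0 a' := by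
    intro a a'
    ext x
    simp [E0, eps, add_mul, mul_add]
  refine system J p hp1.ne' hres hpJ hk (hann _ hpJ) hTp ?_ t n htN htne
    R D E (fun a => t ^ n * al (lam a)) ?_ ?_ ?_ ?_ ?_ ?_ ?_ ?_ ?_ ?_ ?_ ?_ ?_ ?_
  · rw [Fintype.card_prod, Fintype.card_fin, Nat.cast_mul, hTp, zero_mul]
  · intro a a'
    ext x y
    simp only [R, aR0, Matrix.of_apply, Matrix.add_apply]
    split_ifs <;> simp
  · intro a a'
    ext x
    simp only [D, aD0, Pi.add_apply]
    split_ifs <;> simp
  · intro a a'
    ext x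
    simp only [E, aE0, Pi.add_apply]
    split_ifs <;> simp
  · intro a a'
    simp [mul_add]
  · intro a a'
    ext x y
    rw [Matrix.mul_apply, Fintype.sum_prod_type]
    simp only [R, Matrix.of_apply, mR0, Matrix.mul_apply]
    rw [Finset.sum_eq_single (0 : Fin p)]
    · by_cases h1 : x.1 = 0 <;> by_cases h2 : y.1 = 0 <;> simp [h1, h2]
    · intro i _ hi
      simp [hi]
    · simp
  · intro a a'
    ext x
    rw [Matrix.mulVec, dotProduct, Fintype.sum_prod_type]
    simp only [R, D, Matrix.of_apply, mD0, Matrix.mulVec, dotProduct]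
    rw [Finset.sum_eq_single (0 : Fin p)]
    · by_cases h1 : x.1 = 0 <;> simp [h1]
    · intro i _ hi
      simp [hi]
    · simp
  · intro a a'
    ext y
    rw [Matrix.vecMul, dotProduct, Fintype.sum_prod_type]
    simp only [R, E, Matrix.of_apply, mE0, Matrix.vecMul, dotProduct]
    rw [Finset.sum_eq_single (0 : Fin p)]
    · by_cases h1 : y.1 = 0 <;> simp [h1]
    · intro i _ hi
      simp [hi]
    · simp
  · intro a a'
    change t ^ n * al (lam (a * a')) = _
    rw [dotProduct, Fintype.sum_prod_type, Finset.sum_eq_single (0 : Fin p)]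
    · rw [mL0]
      simp [D, E, dotProduct]
    · intro i _ hi
      simp [E, hi]
    · simp
  · intro a x y
    simp only [R, Matrix.of_apply]
    split_ifs
    · simp only [R0, Matrix.of_apply]
      by_cases h : y.2 < x.2
      · have : (x.2 : ℕ) - y.2 ≠ 0 := by
          have := Fin.lt_def.1 h
          omega
        exact Dvd.dvd.mul_right (dvd_pow_self t this) _
      · rw [rho0 a _ _ h, map_zero, mul_zero]
        exact dvd_zero _
    · exact dvd_zero _
  · ext x y
    have : rho c = 0 := by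
      have h1 : act lam c c = 0 := by
        ext z
        change ((act lam c c z : J) : A) = 0
        rw [act_apply, hc', map_zero]; rfl
      simp [rho, h1]
    change (if x.1 = 0 ∧ y.1 = 0 then R0 c x.2 y.2 else 0) = (0 : T)
    split_ifs
    · simp [R0, this]
    · rfl
  · ext x
    have : prj lam c c = 0 := by rw [prj_apply, hlam, one_smul, sub_self]
    change (if x.1 = 0 then D0 c x.2 else 0) = (0 : T)
    split_ifs
    · simp [D0, del, this]
    · rfl
  · ext x
    change (if x.1 = 0 then E0 c x.2 else 0) = (0 : T)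
    split_ifs
    · simp [E0, eps, hc']
    · rfl
  · change t ^ n * al (lam c) = t ^ n
    rw [hlam, map_one, mul_one]
  · intro a ha
    have h1 : prj lam c a = 0 := by
      apply b.repr.injective
      ext x
      rw [map_zero, Finsupp.zero_apply]
      have h2 := congrFun ha ((0 : Fin p), x)
      have h3 : t ^ (x : ℕ) * al (del a x) = 0 := by simpa [D, D0] using h2
      have h4 : al (del a x) * t ^ n = 0 := by
        have : t ^ n = t ^ (x : ℕ) * t ^ (n - (x : ℕ)) := by
          rw [← pow_add]; congr 1; have := x.2; omega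
        rw [this]
        linear_combination t ^ (n - (x : ℕ)) * h3
      have h5 : al (del a x) = (((del a x).val : ℤ) : T) := by
        rw [Int.cast_natCast, ← map_natCast al, ZMod.natCast_zmod_val]
      rw [h5] at h4
      have h6 := htne _ h4
      have h7 : ((((del a x).val : ℤ)) : ZMod p) = 0 := (ZMod.intCast_zmod_eq_zero_iff_dvd _ p).2 h6
      rw [Int.cast_natCast, ZMod.natCast_zmod_val] at h7
      exact h7
    refine ⟨((lam a).val : ℤ), ?_⟩
    rw [prj_apply, sub_eq_zero] at h1
    rw [natCast_zsmul, ← Nat.cast_smul_eq_nsmul (ZMod p), ZMod.natCast_zmod_val]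
    exact h1

end

end Pool.Agent.J795.Rep
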