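import Mathlib
import Pool.Agent.J795.Rep.Local

/-! Finite local rings with prime residue field. -/

set_option autoImplicit false

namespace Pool.Agent.J795.Rep

/-- embeddable in a matrix ring over a commutative ring -/
def Repr (A : Type) [Ring A] : Prop :=
  ∃ (C : Type) (_ : CommRing C) (n : ℕ) (f : A →+* Matrix (Fin n) (Fin n) C),
      Function.Injective f

section

variable {A : Type} [Ring A] [Finite A]

theorem unit_of_left {a b : A} (h : IsUnit (a * b)) : IsUnit b := by
  obtain ⟨u, hu⟩ := h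
  have h1 : (↑u⁻¹ * a) * b = 1 := by rw [mul_assoc, ← hu, Units.inv_mul]
  exact ⟨⟨b, ↑u⁻¹ * a, mul_eq_one_comm.1 h1, h1⟩, rfl⟩

theorem unit_of_right {a b : A} (h : IsUnit (a * b)) : IsUnit a := by
  obtain ⟨u, hu⟩ := h
  have h1 : a * (b * ↑u⁻¹) = 1 := by rw [← mul_assoc, ← hu, Units.mul_inv]
  exact ⟨⟨a, b * ↑u⁻¹, h1, mul_eq_one_comm.1 h1⟩, rfl⟩

theorem mem_jac [IsLocalRing A] (a : A) : a ∈ Ring.jacobson A ↔ ¬ IsUnit a := by
  rw [← Ideal.jacobson_bot, Ideal.mem_jacobson_iff]
  constructor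
  · intro h hu
    obtain ⟨u, rfl⟩ := hu
    obtain ⟨z, hz⟩ := h (-↑u⁻¹)
    rw [Ideal.mem_bot, mul_assoc, neg_mul, Units.inv_mul] at hz
    simp at hz
  · intro h y
    have h1 : ¬ IsUnit (-(y * a)) := fun hu => h (unit_of_left (by simpa using hu.neg))
    have h2 : IsUnit (1 + y * a) :=
      (IsLocalRing.isUnit_or_isUnit_of_add_one (a := -(y * a)) (b := 1 + y * a)
        (by abel)).resolve_left h1
    obtain ⟨u, hu⟩ := h2
    refine ⟨↑u⁻¹, ?_⟩
    rw [Ideal.mem_bot]
    have : (↑u⁻¹ : A) * y * a + ↑u⁻¹ = ↑u⁻¹ * (1 + y * a) := by noncomm_ring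
    rw [this, ← hu, Units.inv_mul, sub_self]

theorem charP_aux (p : ℕ) [Fact p.Prime] [Module (ZMod p) A] : Repr A := by
  have hfin : FiniteDimensional (ZMod p) A := Module.Finite.of_finite
  let b := Module.finBasis (ZMod p) A
  let g : A →+* Module.End (ZMod p) A :=
    { toFun := fun a => AddMonoidHom.toZModLinearMap p (AddMonoidHom.mulLeft a)
      map_one' := by ext x; simp [AddMonoidHom.toZModLinearMap]
      map_mul' := fun a b => by ext x; simp [AddMonoidHom.toZModLinearMap, mul_assoc]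
      map_zero' := by ext x; simp [AddMonoidHom.toZModLinearMap]
      map_add' := fun a b => by ext x; simp [AddMonoidHom.toZModLinearMap, add_mul] }
  refine ⟨ZMod p, inferInstance, Module.finrank (ZMod p) A,
    (RingHomClass.toRingHom (LinearMap.toMatrixAlgEquiv b)).comp g, ?_⟩
  refine (LinearMap.toMatrixAlgEquiv b).injective.comp ?_
  intro x y hxy
  have := LinearMap.congr_fun hxy 1
  simpa [g, AddMonoidHom.toZModLinearMap] using this

theorem charP_case (p : ℕ) [Fact p.Prime] (h : (p : A) = 0) : Repr A := by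
  let i : Module (ZMod p) A := AddCommGroup.zmodModule (n := p) (fun x => by
    rw [nsmul_eq_mul, h, zero_mul])
  exact charP_aux p

theorem localCase [IsLocalRing A] (p : ℕ) [Fact p.Prime] (hres : ∀ r : A, ∃ k : ℤ, ¬ IsUnit (r - k))
    (hp : ¬ IsUnit (p : A)) (hann : ∀ a : A, ¬ IsUnit a → (p : A) * a = 0) : Repr A := by
  by_cases hp0 : (p : A) = 0
  · exact charP_case p hp0
  · let J : NonUnitalSubring A :=
      { carrier := {a | a ∈ Ring.jacobson A}
        mul_mem' := fun {a b} _ hb => (Ring.jacobson A).mul_mem_left a hb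
        add_mem' := fun {a b} ha hb => (Ring.jacobson A).add_mem ha hb
        zero_mem' := (Ring.jacobson A).zero_mem
        neg_mem' := fun {a} ha => (Ring.jacobson A).neg_mem ha }
    have hJ : ∀ a, a ∈ J ↔ a ∈ Ring.jacobson A := fun _ => Iff.rfl
    have hJ' : ∀ a, a ∈ J ↔ ¬ IsUnit a := fun a => (hJ a).trans (mem_jac a)
    obtain ⟨m, hm⟩ := IsSemiprimaryRing.isNilpotent (R := A)
    letI : Module (ZMod p) J := AddCommGroup.zmodModule (n := p) (fun x => by
      apply Subtype.ext
      rw [AddSubmonoidClass.coe_nsmul, nsmul_eq_mul]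
      exact hann x ((hJ' _).1 x.2))
    refine core (J := J) (p := p) (fun r => ?_) ((hJ' _).2 hp) (fun k hk => ?_)
      (fun a ha => hann a ((hJ' a).1 ha)) (Ring.jacobson A) hJ m hm hp0
    · obtain ⟨k, hk⟩ := hres r
      exact ⟨k, (hJ' _).2 hk⟩
    · by_contra hcon
      have hco : IsCoprime (p : ℤ) k := by
        rw [Prime.coprime_iff_not_dvd (Nat.prime_iff_prime_int.1 Fact.out)]
        exact hcon
      obtain ⟨u, v, huv⟩ := hco
      have h1 : (u : A) * p + v * k = 1 := by exact_mod_cast congrArg (Int.cast : ℤ → A) huv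
      have h2 : (1 : A) ∈ Ring.jacobson A := by
        rw [← h1]
        exact (Ring.jacobson A).add_mem ((Ring.jacobson A).mul_mem_left _ ((hJ' _).2 hp))
          ((Ring.jacobson A).mul_mem_left _ hk)
      exact (mem_jac 1).1 h2 isUnit_one

end

open Kronecker in
/-- products and subrings -/
theorem repr_prod {A B D : Type} [Ring A] [Ring B] [Ring D] [Nontrivial A] [Nontrivial B]
    (hA : Repr A) (hB : Repr B)
    (f : D →+* A) (g : D →+* B) (h : ∀ x, f x = 0 → g x = 0 → x = 0) : Repr D := by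
  obtain ⟨K, hK, n, φ, hφ⟩ := hA
  obtain ⟨L, hL, m, ψ, hψ⟩ := hB
  have hn : Nonempty (Fin n) := by
    by_contra hcon
    rw [not_nonempty_iff] at hcon
    exact one_ne_zero (α := A) (hφ (Subsingleton.elim _ _))
  have hm : Nonempty (Fin m) := by
    by_contra hcon
    rw [not_nonempty_iff] at hcon
    exact one_ne_zero (α := B) (hψ (Subsingleton.elim _ _))
  obtain ⟨i0⟩ := hn
  obtain ⟨j0⟩ := hm
  let F : D →+* Matrix (Fin n × Fin m) (Fin n × Fin m) (K × L) :=
    { toFun := fun x => Matrix.of fun i j =>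
        ((φ (f x) ⊗ₖ (1 : Matrix (Fin m) (Fin m) K)) i j,
          ((1 : Matrix (Fin n) (Fin n) L) ⊗ₖ ψ (g x)) i j)
      map_one' := by
        ext i j <;> simp only [map_one, Matrix.one_kronecker_one, Matrix.of_apply,
          Matrix.one_apply] <;> split_ifs <;> rfl
      map_mul' := fun x y => by
        ext i j
        · simp only [map_mul, Matrix.of_apply, Matrix.mul_apply, Prod.fst_sum, Prod.fst_mul]
          rw [← Matrix.mul_apply, ← Matrix.mul_kronecker_mul, one_mul]
        · simp only [map_mul, Matrix.of_apply, Matrix.mul_apply, Prod.snd_sum, Prod.snd_mul]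
          rw [← Matrix.mul_apply, ← Matrix.mul_kronecker_mul, one_mul]
      map_zero' := by
        ext i j <;> simp
      map_add' := fun x y => by
        ext i j <;> simp [add_mul, mul_add] }
  have hF : Function.Injective F := by
    rw [injective_iff_map_eq_zero]
    intro x hx
    have ent : ∀ i j, F x i j = 0 := fun i j => by rw [hx]; rfl
    refine h x ?_ ?_
    · apply hφ
      rw [map_zero]
      ext i j
      have := congrArg Prod.fst (ent (i, j0) (j, j0))
      simpa [F] using this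
    · apply hψ
      rw [map_zero]
      ext i j
      have := congrArg Prod.snd (ent (i0, i) (i0, j))
      simpa [F] using this
  let e : Fin n × Fin m ≃ Fin (n * m) := finProdFinEquiv
  exact ⟨K × L, inferInstance, n * m, (Matrix.reindexRingEquiv (K × L) e : _ →+* _).comp F,
    (Matrix.reindexRingEquiv (K × L) e).injective.comp hF⟩

/-- commutative rings -/
theorem repr_comm {A : Type} [CommRing A] : Repr A := by
  refine ⟨A, inferInstance, 1, Matrix.scalar (Fin 1), ?_⟩
  intro x y h
  have := congrFun (congrFun h 0) 0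
  simpa using this

/-- rings with commutative multiplication -/
theorem repr_comm' {A : Type} [Ring A] (h : ∀ x y : A, x * y = y * x) : Repr A := by
  let i : CommRing A := { (inferInstance : Ring A) with mul_comm := h }
  exact @repr_comm A i

theorem main {R : Type} [Ring R] [Finite R] [IsLocalRing R] (p : ℕ) [Fact p.Prime]
    (hres : ∀ r : R, ∃ k : ℤ, ¬ IsUnit (r - k)) (hp : ¬ IsUnit (p : R))
    (L : Ideal R) [L.IsTwoSided] (hL : L ≠ ⊤) (hrep : Repr (R ⧸ L))
    (h : ∀ a : R, ¬ IsUnit a → (p : R) * a ∈ L → (p : R) * a = 0) : Repr R := by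
  let P : Ideal R :=
    { carrier := {x | ∃ a, a ∈ Ring.jacobson R ∧ x = (p : R) * a}
      add_mem' := by
        rintro _ _ ⟨a, ha, rfl⟩ ⟨b, hb, rfl⟩
        exact ⟨a + b, (Ring.jacobson R).add_mem ha hb, by rw [mul_add]⟩
      zero_mem' := ⟨0, (Ring.jacobson R).zero_mem, by simp⟩
      smul_mem' := by
        rintro c _ ⟨a, ha, rfl⟩
        refine ⟨c * a, (Ring.jacobson R).mul_mem_left c ha, ?_⟩
        rw [smul_eq_mul, ← mul_assoc, ← (Nat.cast_commute p c).eq, mul_assoc] }
  have : P.IsTwoSided := ⟨by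
    rintro _ b ⟨a, ha, rfl⟩
    exact ⟨a * b, (Ring.jacobson R).mul_mem_right b ha, by rw [mul_assoc]⟩⟩
  have hPu : ∀ x ∈ P, IsUnit (1 + x) := by
    rintro _ ⟨a, ha, rfl⟩
    have h1 : ¬ IsUnit (-((p : R) * a)) := by
      rw [← mem_jac]
      exact (Ring.jacobson R).neg_mem ((Ring.jacobson R).mul_mem_left _ ha)
    exact (IsLocalRing.isUnit_or_isUnit_of_add_one (a := -((p : R) * a)) (b := 1 + p * a)
        (by abel)).resolve_left h1
  have hunit : ∀ x : R, IsUnit (Ideal.Quotient.mk P x) ↔ IsUnit x := by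
    intro x
    constructor
    · rintro ⟨u, hu⟩
      obtain ⟨y, hy⟩ := Ideal.Quotient.mk_surjective (I := P) ((u⁻¹ : (R ⧸ P)ˣ) : R ⧸ P)
      have h1 : Ideal.Quotient.mk P (x * y) = 1 := by
        rw [map_mul, hy, ← hu, Units.mul_inv]
      have h2 : x * y - 1 ∈ P := by
        rw [← Ideal.Quotient.eq_zero_iff_mem, map_sub, h1, map_one, sub_self]
      have h3 := hPu _ h2
      rw [add_sub_cancel] at h3
      exact unit_of_right h3
    · exact fun hx => hx.map _
  have hPtop : P ≠ ⊤ := by
    intro htop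
    have : (-1 : R) ∈ P := htop ▸ Submodule.mem_top
    have := hPu _ this
    simp at this
  have : Nontrivial (R ⧸ P) := Ideal.Quotient.nontrivial_iff.2 hPtop
  have : Finite (R ⧸ P) := Finite.of_surjective _ (Ideal.Quotient.mk_surjective (I := P))
  have : Nontrivial (R ⧸ L) := Ideal.Quotient.nontrivial_iff.2 hL
  have : IsLocalRing (R ⧸ P) := by
    constructor
    intro a b hab
    obtain ⟨x, rfl⟩ := Ideal.Quotient.mk_surjective a
    obtain ⟨y, rfl⟩ := Ideal.Quotient.mk_surjective b
    have h1 : IsUnit (Ideal.Quotient.mk P (x + y)) := by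
      rw [map_add, hab]; exact isUnit_one
    obtain ⟨u, hu⟩ := (hunit _).1 h1
    have h2 : (↑u⁻¹ * x) + (↑u⁻¹ * y) = 1 := by rw [← mul_add, ← hu, Units.inv_mul]
    rcases IsLocalRing.isUnit_or_isUnit_of_add_one h2 with h3 | h3
    · exact Or.inl ((hunit _).2 (unit_of_left h3))
    · exact Or.inr ((hunit _).2 (unit_of_left h3))
  have hRP : Repr (R ⧸ P) := by
    refine localCase p (fun r => ?_) ?_ (fun a => ?_)
    · obtain ⟨x, rfl⟩ := Ideal.Quotient.mk_surjective r
      obtain ⟨k, hk⟩ := hres x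
      refine ⟨k, ?_⟩
      rw [← map_intCast (Ideal.Quotient.mk P), ← map_sub, hunit]
      exact hk
    · rw [← map_natCast (Ideal.Quotient.mk P), hunit]
      exact hp
    · obtain ⟨x, rfl⟩ := Ideal.Quotient.mk_surjective a
      intro hx
      rw [hunit, ← mem_jac] at hx
      rw [← map_natCast (Ideal.Quotient.mk P), ← map_mul, Ideal.Quotient.eq_zero_iff_mem]
      exact ⟨x, hx, rfl⟩
  refine repr_prod hRP hrep (Ideal.Quotient.mk P) (Ideal.Quotient.mk L) ?_
  intro x h1 h2
  rw [Ideal.Quotient.eq_zero_iff_mem] at h1 h2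
  obtain ⟨a, ha, rfl⟩ := h1
  exact h a ((mem_jac a).1 ha) h2

end Pool.Agent.J795.Rep
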