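import Mathlib
import Pool.Agent.J795.Rep.Final
import Pool.Agent.J795.Rep.Data
import Pool.Agent.J795.Rep.Decomp

/-! Finite local rings of characteristic `p ^ 2` with prime residue field. -/

set_option autoImplicit false
set_option linter.unusedSectionVars false

namespace Pool.Agent.J795.Rep

theorem quot {R : Type} [Ring R] [Finite R] [IsLocalRing R] (p : ℕ) [Fact p.Prime]
    (hres : ∀ r : R, ∃ k : ℤ, ¬ IsUnit (r - k)) (hp : ¬ IsUnit (p : R)) :
    ∃ (C : Type) (_ : CommRing C) (n : ℕ) (f : R →+* Matrix (Fin n) (Fin n) C),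
      0 < n ∧ ∀ x, f x = 0 ↔ ∃ a, ¬ IsUnit a ∧ x = (p : R) * a := by
  let P : Ideal R :=
    { carrier := {x | ∃ a, a ∈ Ring.jacobson R ∧ x = (p : R) * a}
      add_mem' := by
        rintro _ _ ⟨a, ha, rfl⟩ ⟨b, hb, rfl⟩
        exact ⟨a + b, (Ring.jacobson R).add_mem ha hb, by rw [mul_add]⟩
      zero_mem' := ⟨0, (Ring.jacobson R).zero_mem, by simp⟩
      smul_mem' := by
        rintro c _ ⟨a, ha, rfl⟩
        refine ⟨c * a, (Ring.jacobson R).mul_mem_left c ha, ?_⟩
        rw [smul_eq_mul, ← mul_assoc, ← (Nat.cast_commute p c).eq, mul_assoc] }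
  have : P.IsTwoSided := ⟨by
    rintro _ b ⟨a, ha, rfl⟩
    exact ⟨a * b, (Ring.jacobson R).mul_mem_right b ha, by rw [mul_assoc]⟩⟩
  have hPu : ∀ x ∈ P, IsUnit (1 + x) := by
    rintro _ ⟨a, ha, rfl⟩
    have h1 : ¬ IsUnit (-((p : R) * a)) := by
      rw [← mem_jac]
      exact (Ring.jacobson R).neg_mem ((Ring.jacobson R).mul_mem_left _ ha)
    exact (IsLocalRing.isUnit_or_isUnit_of_add_one (a := -((p : R) * a)) (b := 1 + p * a)
        (by abel)).resolve_left h1
  have hunit : ∀ x : R, IsUnit (Ideal.Quotient.mk P x) ↔ IsUnit x := by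
    intro x
    constructor
    · rintro ⟨u, hu⟩
      obtain ⟨y, hy⟩ := Ideal.Quotient.mk_surjective (I := P) ((u⁻¹ : (R ⧸ P)ˣ) : R ⧸ P)
      have h1 : Ideal.Quotient.mk P (x * y) = 1 := by
        rw [map_mul, hy, ← hu, Units.mul_inv]
      have h2 : x * y - 1 ∈ P := by
        rw [← Ideal.Quotient.eq_zero_iff_mem, map_sub, h1, map_one, sub_self]
      have h3 := hPu _ h2
      rw [add_sub_cancel] at h3
      exact unit_of_right h3
    · exact fun hx => hx.map _
  have hPtop : P ≠ ⊤ := by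
    intro htop
    have : (-1 : R) ∈ P := htop ▸ Submodule.mem_top
    have := hPu _ this
    simp at this
  have : Nontrivial (R ⧸ P) := Ideal.Quotient.nontrivial_iff.2 hPtop
  have : Finite (R ⧸ P) := Finite.of_surjective _ (Ideal.Quotient.mk_surjective (I := P))
  have : IsLocalRing (R ⧸ P) := by
    constructor
    intro a b hab
    obtain ⟨x, rfl⟩ := Ideal.Quotient.mk_surjective a
    obtain ⟨y, rfl⟩ := Ideal.Quotient.mk_surjective b
    have h1 : IsUnit (Ideal.Quotient.mk P (x + y)) := by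
      rw [map_add, hab]; exact isUnit_one
    obtain ⟨u, hu⟩ := (hunit _).1 h1
    have h2 : (↑u⁻¹ * x) + (↑u⁻¹ * y) = 1 := by rw [← mul_add, ← hu, Units.inv_mul]
    rcases IsLocalRing.isUnit_or_isUnit_of_add_one h2 with h3 | h3
    · exact Or.inl ((hunit _).2 (unit_of_left h3))
    · exact Or.inr ((hunit _).2 (unit_of_left h3))
  have hRP : Repr (R ⧸ P) := by
    refine localCase p (fun r => ?_) ?_ (fun a => ?_)
    · obtain ⟨x, rfl⟩ := Ideal.Quotient.mk_surjective r
      obtain ⟨k, hk⟩ := hres x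
      refine ⟨k, ?_⟩
      rw [← map_intCast (Ideal.Quotient.mk P), ← map_sub, hunit]
      exact hk
    · rw [← map_natCast (Ideal.Quotient.mk P), hunit]
      exact hp
    · obtain ⟨x, rfl⟩ := Ideal.Quotient.mk_surjective a
      intro hx
      rw [hunit, ← mem_jac] at hx
      rw [← map_natCast (Ideal.Quotient.mk P), ← map_mul, Ideal.Quotient.eq_zero_iff_mem]
      exact ⟨x, hx, rfl⟩
  obtain ⟨C, hC, n, g, hg⟩ := hRP
  refine ⟨C, hC, n, g.comp (Ideal.Quotient.mk P), ?_, ?_⟩
  · rcases Nat.eq_zero_or_pos n with h | h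
    · subst h
      exact absurd (hg (Subsingleton.elim (g 0) (g 1))) zero_ne_one
    · exact h
  · intro x
    rw [RingHom.comp_apply, map_eq_zero_iff g hg, Ideal.Quotient.eq_zero_iff_mem]
    change (∃ a, a ∈ Ring.jacobson R ∧ x = (p : R) * a) ↔ _
    simp only [mem_jac]

theorem charSq {A : Type} [Ring A] [Finite A] [IsLocalRing A] (p : ℕ) [Fact p.Prime]
    (hres : ∀ r : A, ∃ k : ℤ, ¬ IsUnit (r - k)) (hp : ¬ IsUnit (p : A))
    (h2 : (p : A) * p = 0) : Repr A := by
  classical
  by_cases hp0 : (p : A) = 0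
  · exact charP_case p hp0
  obtain ⟨K0, hK0, ν, F, hν, hF⟩ := quot p hres hp
  let m0 : Fin ν := ⟨0, hν⟩
  have hpp : (p : K0) * p = 0 := by
    have h1 : F ((p : A) * p) = 0 := by rw [h2, map_zero]
    rw [map_mul, map_natCast] at h1
    have h3 := congrFun (congrFun h1 m0) m0
    rw [← nsmul_eq_mul, Matrix.smul_apply, ← Matrix.diagonal_natCast,
      Matrix.diagonal_apply_eq, nsmul_eq_mul] at h3
    exact h3
  have hpK : (p : K0) ≠ 0 := by
    intro h
    have h1 : F (p : A) = 0 := by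
      rw [map_natCast, ← Matrix.diagonal_natCast, h, Matrix.diagonal_zero]
    obtain ⟨a, ha, h3⟩ := (hF _).1 h1
    have h4 : IsUnit (1 - a) :=
      (IsLocalRing.isUnit_or_isUnit_of_add_one (a := a) (b := 1 - a) (by abel)).resolve_left ha
    obtain ⟨v, hv⟩ := h4
    have h5 : (p : A) * v = 0 := by
      rw [hv, mul_sub, mul_one, ← h3, sub_self]
    apply hp0
    have h6 : (p : A) * v * (↑v⁻¹ : A) = 0 := by rw [h5, zero_mul]
    rwa [mul_assoc, Units.mul_inv, mul_one] at h6
  have hchar : CharP K0 (p ^ 2) := by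
    have h1 : ringChar K0 ∣ p ^ 2 := by
      apply ringChar.dvd
      push_cast
      rw [sq]; exact hpp
    obtain ⟨k, hk, hk'⟩ := (Nat.dvd_prime_pow (Fact.out : p.Prime)).1 h1
    have h3 : ¬ ringChar K0 ∣ p := by
      intro h
      exact hpK ((ringChar.spec K0 p).2 h)
    have h4 : k = 2 := by
      interval_cases k
      · exact absurd (by rw [hk']; simp) h3
      · exact absurd (by rw [hk', pow_one]) h3
      · rfl
    rw [h4] at hk'
    have h5 := ringChar.charP K0
    rwa [hk'] at h5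
  obtain ⟨α, β, hα, hβ, ⟨e⟩⟩ := decomp (V := A) p Fact.out (fun v => by
    rw [nsmul_eq_mul]; push_cast; rw [sq, h2, zero_mul])
  -- the action on the second factor
  let φ : A → ((β → ZMod p) →+ (β → ZMod p)) := fun a =>
    AddMonoidHom.mk' (fun y => (e (a * e.symm (0, y))).2) (by
      intro x y
      have : ((0, x + y) : (α → ZMod (p ^ 2)) × (β → ZMod p)) = (0, x) + (0, y) := by simp
      rw [this, map_add, mul_add, map_add]; rfl)
  have hφ : ∀ a y, φ a y = (e (a * e.symm (0, y))).2 := fun _ _ => rfl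
  let Dop : A → ((β → ZMod p) →ₗ[ZMod p] (β → ZMod p)) := fun a =>
    AddMonoidHom.toZModLinearMap p (φ a)
  have hDop : ∀ a y, Dop a y = (e (a * e.symm (0, y))).2 := fun _ _ => rfl
  have dmul : ∀ s a y, Dop s (Dop a y) = Dop (s * a) y := by
    intro s a y
    rw [hDop, hDop, hDop]
    obtain ⟨w, hw⟩ : ∃ w, w = a * e.symm (0, y) := ⟨_, rfl⟩
    rw [mul_assoc, ← hw]
    have h3 : p • w = 0 := by
      rw [hw, ← mul_smul_comm, ← map_nsmul]
      have : p • ((0, y) : (α → ZMod (p ^ 2)) × (β → ZMod p)) = 0 := by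
        ext i
        · simp
        · simp
      rw [this, map_zero, mul_zero]
    have h4 : ∀ i, ∃ z : ℤ, (e w).1 i = ((p * z : ℤ) : ZMod (p ^ 2)) := by
      intro i
      have h5 : (p : ZMod (p ^ 2)) * (e w).1 i = 0 := by
        rw [← nsmul_eq_mul]
        have : p • (e w) = 0 := by rw [← map_nsmul, h3, map_zero]
        exact congrFun (congrArg Prod.fst this) i
      obtain ⟨z, hz⟩ := mulp_surj p (Fact.out : p.Prime).pos _ h5
      obtain ⟨z, rfl⟩ := ZMod.intCast_surjective z
      refine ⟨z, ?_⟩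
      rw [← hz, mulp_int]; push_cast; ring
    choose z hz using h4
    have h6 : w = p • e.symm ((fun i => (z i : ZMod (p ^ 2))), 0) + e.symm (0, (e w).2) := by
      apply e.injective
      rw [map_add, map_nsmul, e.apply_symm_apply, e.apply_symm_apply]
      ext i
      · simp [hz]
      · simp
    conv_rhs => rw [h6, mul_add, mul_smul_comm, map_add, map_nsmul]
    ext i
    simp
  -- the filtration
  obtain ⟨m, hm⟩ := IsSemiprimaryRing.isNilpotent (R := A)
  let I : Ideal A := Ring.jacobson A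
  let Fil : ℕ → Submodule (ZMod p) (β → ZMod p) := fun i =>
    Submodule.span (ZMod p) {y | ∃ a ∈ I ^ i, ∃ x, y = Dop a x}
  have hF0 : Fil 0 = ⊤ := by
    rw [eq_top_iff]
    intro y _
    refine Submodule.subset_span ⟨1, ?_, y, ?_⟩
    · rw [Submodule.pow_zero, Ideal.one_eq_top]; exact Submodule.mem_top
    · rw [hDop]; simp
  have hFm : Fil m = ⊥ := by
    rw [eq_bot_iff]
    change Submodule.span _ _ ≤ _
    rw [Submodule.span_le]
    rintro y ⟨a, ha, x, rfl⟩
    have : I ^ m = ⊥ := hm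
    rw [this] at ha
    rw [(Submodule.mem_bot A).1 ha, hDop]
    simp
  have hFa : Antitone Fil := by
    intro i j hij
    apply Submodule.span_mono
    rintro y ⟨a, ha, x, rfl⟩
    exact ⟨a, Ideal.pow_le_pow_right hij ha, x, rfl⟩
  obtain ⟨n, b, hb⟩ := exists_tri (fun s : I => Dop s) Fil hF0 m hFm hFa (by
    intro s i x hx
    have : Fil i ≤ (Fil (i + 1)).comap (Dop s) := by
      change Submodule.span _ _ ≤ _
      rw [Submodule.span_le]
      rintro y ⟨a, ha, x, rfl⟩
      rw [SetLike.mem_coe, Submodule.mem_comap, dmul]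
      refine Submodule.subset_span ⟨s * a, ?_, x, rfl⟩
      rw [Ideal.IsTwoSided.pow_succ]
      exact Ideal.mul_mem_mul s.2 ha
    exact this hx)
  obtain ⟨T, hT, al, t, htN, htne, hTp⟩ := exists_T p n
  have alx : ∀ x : ZMod p, al x * t ^ n = 0 → x = 0 := by
    intro x hx
    obtain ⟨k, rfl⟩ := ZMod.intCast_surjective x
    rw [map_intCast] at hx
    exact (ZMod.intCast_zmod_eq_zero_iff_dvd _ p).2 (htne k hx)
  let PA : α → A →+ ZMod (p ^ 2) := fun i => AddMonoidHom.mk' (fun v => (e v).1 i) (by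
    intro x y; rw [map_add]; rfl)
  let PD : Fin n → A →+ ZMod p := fun j => AddMonoidHom.mk' (fun v => b.repr (e v).2 j) (by
    intro x y; rw [map_add, Prod.snd_add, map_add]; rfl)
  have hPA : ∀ i v, PA i v = (e v).1 i := fun _ _ => rfl
  have hPD : ∀ i v, PD i v = b.repr (e v).2 i := fun _ _ => rfl
  have hdiag : ∀ (r : A) (k : ℤ), ¬ IsUnit (r - k) → ∀ i j, i ≤ j →
      PD i (r * e.symm (0, b j)) = if i = j then (k : ZMod p) else 0 := by
    intro r k hk i j hij
    have h3 : r * e.symm (0, b j) = (r - k) * e.symm (0, b j) + k • e.symm (0, b j) := by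
      rw [sub_mul, zsmul_eq_mul]; abel
    rw [h3, map_add, map_zsmul]
    have h4 : PD i ((r - k) * e.symm (0, b j)) = 0 := hb ⟨r - k, (mem_jac _).2 hk⟩ j i hij
    rw [h4, zero_add, hPD, e.apply_symm_apply]
    by_cases h : i = j
    · simp [h]
    · simp [h, Ne.symm h]
  refine fromData p m0 F al t htN alx (fun i => e.symm (Pi.single i 1, 0))
    (fun j => e.symm (0, b j)) PA PD ?_ ?_ ?_ ?_ ?_ ?_ ?_
  · intro i j
    rw [hPA, e.apply_symm_apply]
    simp [Pi.single_apply]
  · intro j i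
    rw [hPD, e.apply_symm_apply]
    simp
  · intro i j
    rw [hPA, e.apply_symm_apply]
    rfl
  · intro i j
    rw [hPD, e.apply_symm_apply]
    by_cases h : i = j
    · simp [h]
    · simp [h, Ne.symm h]
  · intro v h3 h4
    apply e.injective
    rw [map_zero]
    apply Prod.ext
    · ext i; exact h3 i
    · apply b.repr.injective
      ext i
      rw [Prod.snd_zero, map_zero]
      exact h4 i
  · intro r i j hij
    obtain ⟨k, hk⟩ := hres r
    rw [hdiag r k hk i j hij.le, if_neg hij.ne]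
  · intro r
    obtain ⟨k, hk⟩ := hres r
    refine ⟨k, fun i j => ?_, fun i => ?_⟩
    · have h3 : F ((p : A) * (r - k)) = 0 := (hF _).2 ⟨_, hk, rfl⟩
      rw [map_mul, map_natCast, map_sub, map_intCast, ← nsmul_eq_mul] at h3
      have h4 := congrFun (congrFun h3 i) j
      rw [Matrix.smul_apply, Matrix.sub_apply, ← Matrix.diagonal_intCast,
        Matrix.diagonal_apply, nsmul_eq_mul] at h4
      exact h4
    · rw [hdiag r k hk i i le_rfl, if_pos rfl]

end Pool.Agent.J795.Rep
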