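import Mathlib
import Pool.Agent.J795.Rep.CharSq

/-! Finite local rings with prime residue field in which `p ^ 2` avoids an ideal. -/

set_option autoImplicit false
set_option linter.unusedSectionVars false

namespace Pool.Agent.J795.Rep

section

variable {R : Type} [Ring R] [Finite R] [IsLocalRing R]

theorem hunitQ (P : Ideal R) [P.IsTwoSided] (hP : ∀ x ∈ P, ¬ IsUnit x) (x : R) :
    IsUnit (Ideal.Quotient.mk P x) ↔ IsUnit x := by
  constructor
  · rintro ⟨u, hu⟩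
    obtain ⟨y, hy⟩ := Ideal.Quotient.mk_surjective (I := P) ((u⁻¹ : (R ⧸ P)ˣ) : R ⧸ P)
    have h1 : Ideal.Quotient.mk P (x * y) = 1 := by
      rw [map_mul, hy, ← hu, Units.mul_inv]
    have h2 : 1 - x * y ∈ P := by
      rw [← Ideal.Quotient.eq_zero_iff_mem, map_sub, h1, map_one, sub_self]
    have h3 := (IsLocalRing.isUnit_or_isUnit_of_add_one (a := 1 - x * y) (b := x * y)
        (by abel)).resolve_left (hP _ h2)
    exact unit_of_right h3
  · exact fun hx => hx.map _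

theorem localQ (P : Ideal R) [P.IsTwoSided] (hP : ∀ x ∈ P, ¬ IsUnit x) : IsLocalRing (R ⧸ P) := by
  have hPtop : P ≠ ⊤ := fun h => hP 1 (h ▸ Submodule.mem_top) isUnit_one
  have : Nontrivial (R ⧸ P) := Ideal.Quotient.nontrivial_iff.2 hPtop
  constructor
  intro a b hab
  obtain ⟨x, rfl⟩ := Ideal.Quotient.mk_surjective a
  obtain ⟨y, rfl⟩ := Ideal.Quotient.mk_surjective b
  have h1 : IsUnit (Ideal.Quotient.mk P (x + y)) := by
    rw [map_add, hab]; exact isUnit_one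
  obtain ⟨u, hu⟩ := (hunitQ P hP _).1 h1
  have h2 : (↑u⁻¹ * x) + (↑u⁻¹ * y) = 1 := by rw [← mul_add, ← hu, Units.inv_mul]
  rcases IsLocalRing.isUnit_or_isUnit_of_add_one h2 with h3 | h3
  · exact Or.inl ((hunitQ P hP _).2 (unit_of_left h3))
  · exact Or.inr ((hunitQ P hP _).2 (unit_of_left h3))

theorem mainSq (p : ℕ) [Fact p.Prime]
    (hres : ∀ r : R, ∃ k : ℤ, ¬ IsUnit (r - k)) (hp : ¬ IsUnit (p : R))
    (L : Ideal R) [L.IsTwoSided] (hL : L ≠ ⊤) (hrep : Repr (R ⧸ L))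
    (h : ∀ a : R, (p : R) ^ 2 * a ∈ L → (p : R) ^ 2 * a = 0) : Repr R := by
  let P : Ideal R :=
    { carrier := {x | ∃ a, x = (p : R) ^ 2 * a}
      add_mem' := by
        rintro _ _ ⟨a, rfl⟩ ⟨b, rfl⟩
        exact ⟨a + b, by rw [mul_add]⟩
      zero_mem' := ⟨0, by simp⟩
      smul_mem' := by
        rintro c _ ⟨a, rfl⟩
        refine ⟨c * a, ?_⟩
        rw [smul_eq_mul, ← mul_assoc, ← ((Nat.cast_commute p c).pow_left 2).eq, mul_assoc] }
  have : P.IsTwoSided := ⟨by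
    rintro _ b ⟨a, rfl⟩
    exact ⟨a * b, by rw [mul_assoc]⟩⟩
  have hP : ∀ x ∈ P, ¬ IsUnit x := by
    rintro _ ⟨a, rfl⟩ hu
    rw [sq, mul_assoc] at hu
    exact hp (unit_of_right hu)
  have hloc := localQ P hP
  have : Finite (R ⧸ P) := Finite.of_surjective _ (Ideal.Quotient.mk_surjective (I := P))
  have : Nontrivial (R ⧸ L) := Ideal.Quotient.nontrivial_iff.2 hL
  have hRP : Repr (R ⧸ P) := by
    refine charSq p (fun r => ?_) ?_ ?_
    · obtain ⟨x, rfl⟩ := Ideal.Quotient.mk_surjective r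
      obtain ⟨k, hk⟩ := hres x
      refine ⟨k, ?_⟩
      rw [← map_intCast (Ideal.Quotient.mk P), ← map_sub, hunitQ P hP]
      exact hk
    · rw [← map_natCast (Ideal.Quotient.mk P), hunitQ P hP]
      exact hp
    · rw [← map_natCast (Ideal.Quotient.mk P), ← map_mul, Ideal.Quotient.eq_zero_iff_mem]
      exact ⟨1, by rw [mul_one, sq]⟩
  refine repr_prod hRP hrep (Ideal.Quotient.mk P) (Ideal.Quotient.mk L) ?_
  intro x h1 h2
  rw [Ideal.Quotient.eq_zero_iff_mem] at h1 h2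
  obtain ⟨a, rfl⟩ := h1
  exact h a h2

end

end Pool.Agent.J795.Rep
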